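import Pool.Agent.Work.MP_d70a14_gt.Defs

/-! # Extension of isometries of planes (S-M)

The linear parts of `a` and `b` are linear isometries `A, B : P2 → E`; `B ∘ A⁻¹` on the range of `A` extends to a linear isometry of `E`
(`LinearIsometry.extend`), which is an equivalence (finite dimension, `LinearIsometry.toLinearIsometryEquiv`).  Combine with translations:
`N x = L (x - a 0) + b 0`. -/

open MeasureTheory Set Metric Filter Topology
open scoped RealInnerProductSpace ContDiff ENNReal

noncomputable section

namespace Pool.Agent.Work.MP_d70a14_gt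

theorem plane_extend (a b : P2 →ᵃⁱ[ℝ] E) : ∃ N : E ≃ᵃⁱ[ℝ] E, ∀ z, N (a z) = b z := by
  set A := a.linearIsometry with hA
  set B := b.linearIsometry with hB
  set S := LinearMap.range A.toLinearMap with hS
  set C : S →ₗᵢ[ℝ] E := B.comp A.equivRange.symm.toLinearIsometry with hC
  set L : E ≃ₗᵢ[ℝ] E := C.extend.toLinearIsometryEquiv rfl with hL
  have hLA : ∀ z, L (A z) = B z := by
    intro z
    have h1 : C.extend (A z) = C (A.equivRange z) := C.extend_apply (A.equivRange z)
    show C.extend (A z) = B z
    rw [h1]
    show B (A.equivRange.symm (A.equivRange z)) = B z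
    rw [LinearIsometryEquiv.symm_apply_apply]
  have ha : ∀ z, a z = A z + a 0 := by
    intro z
    have h1 := a.map_vadd 0 z
    rwa [vadd_eq_add, vadd_eq_add, add_zero] at h1
  have hb : ∀ z, b z = B z + b 0 := by
    intro z
    have h1 := b.map_vadd 0 z
    rwa [vadd_eq_add, vadd_eq_add, add_zero] at h1
  refine ⟨AffineIsometryEquiv.mk' (fun x => L (x - a 0) + b 0) L (a 0) ?_, ?_⟩
  · intro p
    simp
  · intro z
    show L (a z - a 0) + b 0 = b z
    rw [ha z, add_sub_cancel_right, hLA, ← hb z]

end Pool.Agent.Work.MP_d70a14_gt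

end
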