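import Pool.Agent.Work.MP_d70a14_gt.D.Local
import Pool.Agent.Work.MP_d70a14_gt.D.Extend

/-! # The ends are congruent (S)

`M` from `kap_global`: `interior (K true) = kap true '' V = M '' (kap false '' V) = M '' interior (K false)` (`kap_image`); closures (`regular`, `M` is a homeomorphism):
`K true = M '' K false`.  `plane_extend` for `a = ι false` and `b = ι true ∘ M`. -/

open MeasureTheory Set Metric Filter Topology
open scoped RealInnerProductSpace ContDiff ENNReal

noncomputable section

namespace Pool.Agent.Work.MP_d70a14_gt

variable {V : Set E} {K : Bool → Set P2} {ι : Bool → P2 →ᵃⁱ[ℝ] E} {f : E → ℝ} {X : E → E}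
  {γ : ℝ → E → E}


theorem Sweep.congruent (h : Sweep V K ι f X γ) :
    ∃ M : E ≃ᵢ E, M '' (ι false '' K false) = ι true '' K true := by
  obtain ⟨M, hM⟩ := h.kap_global
  obtain ⟨N, hN⟩ := plane_extend (ι false) ((ι true).comp M.toAffineIsometry)
  have h1 : interior (K true) = M.toHomeomorph '' interior (K false) := by
    rw [← h.kap_image true, ← h.kap_image false, image_image]
    exact image_congr hM
  have h2 : K true = M.toHomeomorph '' K false := by
    have h3 := M.toHomeomorph.image_closure (interior (K false))
    rw [h.body.regular false, ← h1, h.body.regular true] at h3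
    exact h3.symm
  refine ⟨N.toIsometryEquiv, ?_⟩
  rw [h2, image_image, image_image]
  exact image_congr fun z _ => hN z

end Pool.Agent.Work.MP_d70a14_gt

end
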