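import Pool.Agent.Work.MP_d70a14_gt.Defs

/-! # Isometric maps of a disc (M)

Translate: `c = 0`, `g 0 = 0`.  For `x, y` in the ball: `‖g x‖ = ‖x‖` and `⟪g x, g y⟫ = (‖x‖^2 + ‖y‖^2 - ‖x - y‖^2)/2 = ⟪x, y⟫`.  Let `e₁, e₂` be the standard basis,
`ρ = r/2`, `f_j = ρ⁻¹ g (ρ e_j)`: orthonormal, so there is a linear isometry `L` of the plane with `L e_j = f_j`.  For `x` in the ball
`⟪g x, f_j⟫ = ρ⁻¹ ⟪x, ρ e_j⟫ = ⟪x, e_j⟫ = ⟪L x, f_j⟫`, so `g x = L x`.  (An injective linear isometry of a finite-dimensional space is an equivalence.) -/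

open MeasureTheory Set Metric Filter Topology
open scoped RealInnerProductSpace ContDiff ENNReal

noncomputable section

namespace Pool.Agent.Work.MP_d70a14_gt

theorem disc_ext {g : P2 → P2} {c : P2} {r : ℝ} (hr : 0 < r)
    (hg : ∀ x ∈ ball c r, ∀ y ∈ ball c r, dist (g x) (g y) = dist x y) :
    ∃ J : P2 ≃ᵃⁱ[ℝ] P2, ∀ x ∈ ball c r, g x = J x := by
  set g₀ : P2 → P2 := fun x => g (c + x) - g c with hg₀
  have hc : c ∈ ball c r := mem_ball_self hr
  have hmem : ∀ x : P2, ‖x‖ < r → c + x ∈ ball c r := by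
    intro x hx
    rw [mem_ball, dist_eq_norm, add_sub_cancel_left]
    exact hx
  have hnorm : ∀ x : P2, ‖x‖ < r → ‖g₀ x‖ = ‖x‖ := by
    intro x hx
    have h1 := hg _ (hmem x hx) c hc
    rw [dist_eq_norm, dist_eq_norm, add_sub_cancel_left] at h1
    exact h1
  have hin : ∀ x y : P2, ‖x‖ < r → ‖y‖ < r → ⟪g₀ x, g₀ y⟫ = ⟪x, y⟫ := by
    intro x y hx hy
    have h1 := hg _ (hmem x hx) _ (hmem y hy)
    rw [dist_eq_norm, dist_eq_norm, add_sub_add_left_eq_sub] at h1
    have h2 : g (c + x) - g (c + y) = g₀ x - g₀ y := by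
      simp only [hg₀]
      abel
    rw [h2] at h1
    have h3 := norm_sub_sq_real (g₀ x) (g₀ y)
    have h4 := norm_sub_sq_real x y
    rw [h1, hnorm x hx, hnorm y hy] at h3
    linarith
  set ρ : ℝ := r / 2 with hρ
  have hρpos : 0 < ρ := by positivity
  have hρe : ∀ j : Fin 2, ‖ρ • (EuclideanSpace.single j (1 : ℝ) : P2)‖ < r := by
    intro j
    rw [norm_smul, Real.norm_eq_abs, abs_of_pos hρpos]
    have : ‖(EuclideanSpace.single j (1 : ℝ) : P2)‖ = 1 := by simp
    rw [this, mul_one, hρ]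
    linarith
  set f : Fin 2 → P2 := fun j => ρ⁻¹ • g₀ (ρ • (EuclideanSpace.single j (1 : ℝ) : P2)) with hf
  have hfin : ∀ (j : Fin 2) (x : P2), ‖x‖ < r → ⟪f j, g₀ x⟫ = x j := by
    intro j x hx
    simp only [hf]
    rw [real_inner_smul_left, hin _ _ (hρe j) hx, real_inner_smul_left, ← mul_assoc,
      inv_mul_cancel₀ hρpos.ne', one_mul, EuclideanSpace.inner_single_left]
    simp
  have hon : Orthonormal ℝ f := by
    rw [orthonormal_iff_ite]
    intro i j
    have h1 : ⟪f i, f j⟫ = ρ⁻¹ * ⟪f i, g₀ (ρ • (EuclideanSpace.single j (1 : ℝ) : P2))⟫ := by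
      conv_lhs => rw [hf]
      simp only
      rw [real_inner_smul_right]
    rw [h1, hfin i _ (hρe j)]
    by_cases hij : i = j
    · subst hij
      simp [hρpos.ne']
    · simp [hij]
  set fb : OrthonormalBasis (Fin 2) ℝ P2 :=
    (basisOfOrthonormalOfCardEqFinrank hon (by simp)).toOrthonormalBasis (by
      rw [coe_basisOfOrthonormalOfCardEqFinrank]
      exact hon) with hfb
  have hfbj : ∀ j, fb j = f j := by
    intro j
    rw [hfb, Module.Basis.coe_toOrthonormalBasis, coe_basisOfOrthonormalOfCardEqFinrank]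
  have hL : ∀ x : P2, ‖x‖ < r → g₀ x = fb.repr.symm x := by
    intro x hx
    rw [← LinearIsometryEquiv.symm_apply_apply fb.repr (g₀ x)]
    congr 1
    ext j
    rw [OrthonormalBasis.repr_apply_apply, hfbj, hfin j x hx]
  refine ⟨AffineIsometryEquiv.mk' (fun x => fb.repr.symm (x - c) + g c) fb.repr.symm c ?_, ?_⟩
  · intro p
    simp
  · intro x hx
    have h1 : ‖x - c‖ < r := by
      rw [← dist_eq_norm]
      exact hx
    show g x = fb.repr.symm (x - c) + g c
    rw [← hL _ h1]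
    simp [hg₀]

end Pool.Agent.Work.MP_d70a14_gt

end
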