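import Pool.Agent.Work.MP_d70a14_gt.D.Inside

/-! # The flow lines end on the ends (M)

`kap_spec`: for `x ∈ V`, `i = true`: `γ (1 - f x) x` is the limit of `γ t x ∈ V` (`t ↑ 1 - f x`), so in `closure V`, with `f = 1`: by `mid` and `end0` it is in the end
`true`; the same for `false`.  `Function.invFun` of the injective map `ι i`.
`kap_flow`: group property and `f (γ t x) = f x + t`.
`kap_surj` (`i = false`, `y₀ = ι false y`, normal `n`, half ball of radius `r`, `Body.end_normal`): `f = 0` on the plane near `y₀` (points `ι false z`, `z ∈ K false`), so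
`∇f y₀ = λ n`; `f > 0` on `V` gives `λ ≥ 0`, and `λ ≠ 0` by `crit`; so `⟪X y₀, n⟫ > 0` and `γ t y₀ = y₀ + t X y₀ + o(t) ∈ V` for small `t > 0`; on `(0, t]`
`d/ds f (γ s y₀) = 1`, so by continuity `f (γ t y₀) = t`; for `x = γ t y₀`: `γ (-f x) x = y₀`.  `i = true`: `f = 1` on the plane, `⟪∇f y₀, n⟫ < 0`,
`x = γ (-t) y₀`, `f x = 1 - t`. -/

open MeasureTheory Set Metric Filter Topology
open scoped RealInnerProductSpace ContDiff ENNReal

noncomputable section

namespace Pool.Agent.Work.MP_d70a14_gt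

variable {V : Set E} {K : Bool → Set P2} {ι : Bool → P2 →ᵃⁱ[ℝ] E} {f : E → ℝ} {X : E → E}
  {γ : ℝ → E → E}


private theorem ends_grad (g : E → ℝ) (z v : E) : ⟪gradient g z, v⟫ = fderiv ℝ g z v := by
  rw [gradient, InnerProductSpace.toDual_symm_apply]

private theorem Sweep.efX (h : Sweep V K ι f X γ) {z : E} (hz : z ∈ closure V) :
    DifferentiableAt ℝ f z ∧ fderiv ℝ f z (X z) = 1 := by
  obtain ⟨U, hU, hVU, hf⟩ := h.smooth
  obtain ⟨O, hO, hVO, hXO⟩ := h.X_eq
  refine ⟨(hf.contDiffAt (hU.mem_nhds (hVU hz))).differentiableAt (by norm_num), ?_⟩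
  rw [← ends_grad, hXO z (hVO hz), real_inner_smul_right, real_inner_self_eq_norm_sq]
  have h1 : ‖gradient f z‖ ≠ 0 := norm_ne_zero_iff.2 (h.crit z hz)
  exact inv_mul_cancel₀ (pow_ne_zero 2 h1)

private theorem Sweep.ecder (h : Sweep V K ι f X γ) (x : E) (σ s : ℝ) :
    HasDerivAt (fun s => γ (σ * s) x) (σ • X (γ (σ * s) x)) s := by
  have h1 := h.flow_deriv x (σ * s)
  have h2 : HasDerivAt (fun s : ℝ => σ * s) σ s := by
    simpa using (hasDerivAt_id s).const_mul σ
  exact h1.scomp s h2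

private theorem Sweep.efcurve (h : Sweep V K ι f X γ) {x : E} {σ b : ℝ}
    (hcl : ∀ s ∈ Icc 0 b, γ (σ * s) x ∈ closure V) :
    ∀ s ∈ Icc 0 b, f (γ (σ * s) x) = f x + σ * s := by
  have hd : ∀ s ∈ Icc 0 b, HasDerivAt (fun s => f (γ (σ * s) x) - σ * s) 0 s := by
    intro s hs
    obtain ⟨h1, h2⟩ := h.efX (hcl s hs)
    have h3 := h1.hasFDerivAt.comp_hasDerivAt s (h.ecder x σ s)
    rw [map_smul, h2, smul_eq_mul, mul_one] at h3
    have h4 : HasDerivAt (fun s : ℝ => σ * s) σ s := by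
      simpa using (hasDerivAt_id s).const_mul σ
    have h5 := h3.sub h4
    rw [sub_self] at h5
    exact h5
  intro s hs
  have h1 := constant_of_has_deriv_right_zero (fun s hs => (hd s hs).continuousAt.continuousWithinAt)
    (fun s hs => (hd s (Ico_subset_Icc_self hs)).hasDerivWithinAt) s hs
  simp only [mul_zero, sub_zero, h.flow_zero] at h1
  linarith

theorem Sweep.kap_spec (h : Sweep V K ι f X γ) {x : E} (hx : x ∈ V) (i : Bool) :
    ι i (kap ι f γ i x) = γ ((if i then 1 else 0) - f x) x ∧ kap ι f γ i x ∈ K i := by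
  obtain ⟨hf0, hf1⟩ := h.f_pos hx
  obtain ⟨c, hc⟩ : ∃ c : ℝ, c = if i then 1 else 0 := ⟨_, rfl⟩
  obtain ⟨p, hp⟩ : ∃ p, p = γ (c - f x) x := ⟨_, rfl⟩
  have hcont : Continuous fun t => γ t x :=
    continuous_iff_continuousAt.2 fun t => (h.flow_deriv x t).continuousAt
  have key : ∃ l : Filter ℝ, l.NeBot ∧ l ≤ 𝓝 (c - f x) ∧ ∀ᶠ t in l, -f x < t ∧ t < 1 - f x := by
    cases i
    · have hc0 : c - f x = -f x := by
        rw [hc]
        simp
      refine ⟨𝓝[>] (c - f x), inferInstance, nhdsWithin_le_nhds, ?_⟩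
      rw [hc0]
      exact Ioo_mem_nhdsGT (show -f x < 1 - f x by linarith)
    · have hc0 : c - f x = 1 - f x := by
        rw [hc]
        simp
      refine ⟨𝓝[<] (c - f x), inferInstance, nhdsWithin_le_nhds, ?_⟩
      rw [hc0]
      exact Ioo_mem_nhdsLT (show -f x < 1 - f x by linarith)
  obtain ⟨l, hl, hle, hev⟩ := key
  have ht1 : Tendsto (fun t => γ t x) l (𝓝 p) := by
    rw [hp]
    exact (hcont.tendsto _).mono_left hle
  have hpc : p ∈ closure V :=
    mem_closure_of_tendsto ht1 (hev.mono fun t ht => (h.inside hx ht.1 ht.2).1)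
  have hfp : f p = c := by
    have h1 : Tendsto (fun t => f (γ t x)) l (𝓝 (f p)) :=
      (h.efX hpc).1.continuousAt.tendsto.comp ht1
    have h2 : Tendsto (fun t => f x + t) l (𝓝 (f x + (c - f x))) :=
      ((continuous_const.add continuous_id).tendsto _).mono_left hle
    have h3 : Tendsto (fun t => f (γ t x)) l (𝓝 (f x + (c - f x))) :=
      h2.congr' (hev.mono fun t ht => ((h.inside hx ht.1 ht.2).2).symm)
    have h4 := tendsto_nhds_unique h1 h3
    rw [h4]
    ring
  have hend : ∃ j, p ∈ ι j '' K j := by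
    by_contra hcon
    have hcon' : ∀ j, p ∉ ι j '' K j := fun j hj => hcon ⟨j, hj⟩
    obtain ⟨h1, h2⟩ := h.mid p hpc hcon'
    rw [hfp, hc] at h1 h2
    cases i
    · simp at h1
    · simp at h2
  obtain ⟨j, z, hz, hzp⟩ := hend
  have hji : j = i := by
    cases j
    · cases i
      · rfl
      · have h1 := h.end0 z hz
        rw [hzp, hfp, hc] at h1
        simp at h1
    · cases i
      · have h1 := h.end1 z hz
        rw [hzp, hfp, hc] at h1
        simp at h1
      · rfl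
  subst hji
  have hk : kap ι f γ j x = z := by
    unfold kap
    rw [← hc, ← hp, ← hzp]
    exact Function.leftInverse_invFun (ι j).injective z
  rw [hk, hzp, ← hc, ← hp]
  exact ⟨rfl, hz⟩

theorem Sweep.kap_flow (h : Sweep V K ι f X γ) {x : E} (hx : x ∈ V) {t : ℝ} (h1 : -f x < t)
    (h2 : t < 1 - f x) (i : Bool) : kap ι f γ i (γ t x) = kap ι f γ i x := by
  unfold kap
  rw [(h.inside hx h1 h2).2, h.flow_add]
  have h3 : ((if i then 1 else 0) - (f x + t) + t : ℝ) = (if i then 1 else 0) - f x := by ring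
  rw [h3]

theorem Sweep.kap_surj (h : Sweep V K ι f X γ) (i : Bool) {y : P2} (hy : y ∈ interior (K i)) :
    ∃ x ∈ V, kap ι f γ i x = y := by
  obtain ⟨n, hn, hpl, r, hr, hball⟩ := h.body.end_normal i hy
  have hyK : y ∈ K i := interior_subset hy
  obtain ⟨p, hp⟩ : ∃ p, p = ι i y := ⟨_, rfl⟩
  obtain ⟨c, hc⟩ : ∃ c : ℝ, c = if i then 1 else 0 := ⟨_, rfl⟩
  obtain ⟨σ, hσ⟩ : ∃ σ : ℝ, σ = if i then -1 else 1 := ⟨_, rfl⟩
  have hσσ : σ * σ = 1 := by
    rw [hσ]
    cases i <;> norm_num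
  have hfK : ∀ z ∈ K i, f (ι i z) = c := by
    intro z hz
    rw [hc]
    cases i
    · simpa using h.end0 z hz
    · simpa using h.end1 z hz
  have hfV : ∀ x ∈ V, 0 < σ * (f x - c) := by
    intro x hx
    obtain ⟨h1, h2⟩ := h.f_pos hx
    rw [hσ, hc]
    cases i
    · simpa using h1
    · simp only [if_true]
      linarith
  have hfp : f p = c := by
    rw [hp]
    exact hfK y hyK
  have hpc : p ∈ closure V := by
    rw [hp]
    exact frontier_subset_closure (h.body.ends_frontier i hyK)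
  rw [← hp] at hn hpl hball
  have hd := (h.efX hpc).1
  have hcr := h.crit p hpc
  have hline : ∀ v : E, HasDerivAt (fun s : ℝ => f (p + s • v)) (fderiv ℝ f p v) 0 := by
    intro v
    have h1 : HasDerivAt (fun s : ℝ => p + s • v) v 0 := by
      simpa using ((hasDerivAt_id (0 : ℝ)).smul_const v).const_add p
    have h2 : HasFDerivAt f (fderiv ℝ f p) (p + (0 : ℝ) • v) := by
      rw [zero_smul, add_zero]
      exact hd.hasFDerivAt
    exact h2.comp_hasDerivAt 0 h1
  have htan : ∀ z, ⟪ι i z - ι i y, gradient f p⟫ = 0 := by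
    intro z
    rw [real_inner_comm, ends_grad]
    have h1 : ∀ s : ℝ, ι i (y + s • (z - y)) = p + s • (ι i z - ι i y) := by
      intro s
      have h2 := (ι i).map_vadd y (s • (z - y))
      have h3 := (ι i).map_vadd y (z - y)
      rw [vadd_eq_add, vadd_eq_add] at h2 h3
      rw [sub_add_cancel] at h3
      rw [add_comm y, h2, h3, map_smul, hp, add_sub_cancel_right, add_comm]
    have h2 : Tendsto (fun s : ℝ => y + s • (z - y)) (𝓝 0) (𝓝 y) := by
      have h3 : Continuous fun s : ℝ => y + s • (z - y) := by fun_prop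
      have h4 := h3.tendsto 0
      rwa [zero_smul, add_zero] at h4
    have h3 : ∀ᶠ s : ℝ in 𝓝 0, y + s • (z - y) ∈ interior (K i) :=
      h2.eventually (isOpen_interior.mem_nhds hy)
    have h4 : (fun s : ℝ => f (p + s • (ι i z - ι i y))) =ᶠ[𝓝 0] fun _ => c := by
      filter_upwards [h3] with s hs
      rw [← h1]
      exact hfK _ (interior_subset hs)
    exact (hline _).unique ((hasDerivAt_const (0 : ℝ) c).congr_of_eventuallyEq h4)
  obtain ⟨g, hg⟩ : ∃ g, g = gradient f p := ⟨_, rfl⟩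
  have hg0 : 0 < ‖g‖ := by
    rw [hg]
    exact norm_pos_iff.2 hcr
  have hpl2 : ∀ a b, ⟪ι i a - ι i b, n⟫ = 0 := by
    intro a b
    have h1 : ι i a - ι i b = (ι i a - p) - (ι i b - p) := by abel
    rw [h1, inner_sub_left, hpl, hpl, sub_zero]
  have hm := planeNormal_unique (ι i) hn.1 hpl2 (n := ‖g‖⁻¹ • g) (y := y)
    (by rw [norm_smul, norm_inv, norm_norm, inv_mul_cancel₀ hg0.ne'])
    (fun z => by rw [real_inner_smul_right, hg, htan z, mul_zero])
  have hgn : ⟪g, n⟫ ≠ 0 := by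
    have h1 : g = ‖g‖ • (‖g‖⁻¹ • g) := by
      rw [smul_smul, mul_inv_cancel₀ hg0.ne', one_smul]
    have h2 : ⟪n, n⟫ = (1 : ℝ) := by
      rw [real_inner_self_eq_norm_sq, hn.1]
      norm_num
    intro h3
    rcases hm with h4 | h4
    · rw [h1, h4, real_inner_smul_left, h2, mul_one] at h3
      exact hg0.ne' h3
    · rw [h1, h4, real_inner_smul_left, inner_neg_left, h2] at h3
      linarith
  have hnn : 0 < ⟪n, n⟫ := by
    rw [real_inner_self_eq_norm_sq, hn.1]
    norm_num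
  have hsign : 0 ≤ σ * ⟪g, n⟫ := by
    have h1 := ((hline n).const_mul σ).tendsto_slope_zero_right
    rw [← ends_grad, ← hg] at h1
    refine ge_of_tendsto h1 ?_
    filter_upwards [hn.inward hnn, self_mem_nhdsWithin] with s hs1 hs2
    have hs3 : (0 : ℝ) < s := hs2
    rw [zero_add, zero_smul, add_zero, hfp, ← mul_sub, smul_eq_mul]
    exact (mul_pos (inv_pos.2 hs3) (hfV _ hs1)).le
  have hsign2 : 0 < σ * ⟪g, n⟫ := by
    refine lt_of_le_of_ne hsign fun h1 => ?_
    have h2 : σ * (σ * ⟪g, n⟫) = 0 := by rw [← h1, mul_zero]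
    rw [← mul_assoc, hσσ, one_mul] at h2
    exact hgn h2
  obtain ⟨O, hO, hVO, hXO⟩ := h.X_eq
  have hX : 0 < ⟪σ • X p, n⟫ := by
    rw [hXO p (hVO hpc), ← hg, real_inner_smul_left, real_inner_smul_left]
    have h1 : σ * ((‖g‖ ^ 2)⁻¹ * ⟪g, n⟫) = (‖g‖ ^ 2)⁻¹ * (σ * ⟪g, n⟫) := by ring
    rw [h1]
    positivity
  have hγ0 : γ (σ * 0) p = p := by rw [mul_zero, h.flow_zero]
  have hcur : HasDerivAt (fun s => ⟪γ (σ * s) p - p, n⟫) ⟪σ • X p, n⟫ 0 := by
    have h1 := h.ecder p σ 0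
    rw [hγ0] at h1
    have h2 := (h1.sub_const p).inner ℝ (hasDerivAt_const (0 : ℝ) n)
    simpa using h2
  have hev1 : ∀ᶠ s : ℝ in 𝓝[>] 0, 0 < ⟪γ (σ * s) p - p, n⟫ := by
    have h1 := hcur.tendsto_slope_zero_right
    filter_upwards [h1.eventually (lt_mem_nhds hX), self_mem_nhdsWithin] with s hs hs0
    have hs1 : (0 : ℝ) < s := hs0
    rw [zero_add, hγ0, sub_self, inner_zero_left, sub_zero, smul_eq_mul] at hs
    exact (mul_pos_iff_of_pos_left (inv_pos.2 hs1)).1 hs
  have hev2 : ∀ᶠ s : ℝ in 𝓝[>] 0, γ (σ * s) p ∈ ball p r := by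
    have h1 : Tendsto (fun s => γ (σ * s) p) (𝓝 0) (𝓝 (γ (σ * 0) p)) :=
      (h.ecder p σ 0).continuousAt
    rw [hγ0] at h1
    exact (h1.mono_left nhdsWithin_le_nhds).eventually (ball_mem_nhds p hr)
  have hev : ∀ᶠ s : ℝ in 𝓝[>] 0, γ (σ * s) p ∈ V := by
    filter_upwards [hev1, hev2] with s hs1 hs2
    exact (hball _ hs2).2 hs1
  obtain ⟨u, hu, hsub⟩ := mem_nhdsGT_iff_exists_Ioo_subset.1 hev
  have hu0 : (0 : ℝ) < u := hu
  have hcl : ∀ s ∈ Icc 0 (u / 2), γ (σ * s) p ∈ closure V := by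
    intro s hs
    rcases eq_or_lt_of_le hs.1 with h1 | h1
    · rw [← h1, hγ0]
      exact hpc
    · exact subset_closure (hsub ⟨h1, by linarith [hs.2]⟩)
  have hfx := h.efcurve hcl (u / 2) ⟨by linarith, le_rfl⟩
  refine ⟨γ (σ * (u / 2)) p, hsub ⟨by linarith, by linarith⟩, ?_⟩
  unfold kap
  rw [hfx, hfp, h.flow_add, ← hc]
  have h1 : c - (c + σ * (u / 2)) + σ * (u / 2) = 0 := by ring
  rw [h1, h.flow_zero, hp]
  exact Function.leftInverse_invFun (ι i).injective y

end Pool.Agent.Work.MP_d70a14_gt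

end
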