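import Pool.Agent.Work.MP_d70a14_gt.Defs

/-! # The vector field (S-M)

`∇f` is `C^1` on `U` (`gradient` is the Riesz dual of `fderiv`; `ContDiffOn.fderiv_of_isOpen`), so `Y x = (‖∇f x‖^2)⁻¹ • ∇f x` is `C^1` on the open set
`U' = {x ∈ U : ∇f x ≠ 0} ⊇ closure V`.  Take a smooth bump function `χ` with compact support in `U'` and `χ = 1` on a neighbourhood `O` of the compact set
`closure V` (`exists_contDiff_tsupport_subset`, or `exists_smooth_one_nhds_of_subset_interior`), and `X = χ • Y`. -/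

open MeasureTheory Set Metric Filter Topology
open scoped RealInnerProductSpace ContDiff ENNReal

noncomputable section

namespace Pool.Agent.Work.MP_d70a14_gt

private theorem grad_coord (f : E → ℝ) (x : E) (i : Fin 3) :
    gradient f x i = fderiv ℝ f x (EuclideanSpace.single i (1 : ℝ)) := by
  have h1 : ⟪gradient f x, EuclideanSpace.single i (1 : ℝ)⟫ =
      fderiv ℝ f x (EuclideanSpace.single i (1 : ℝ)) := by
    unfold gradient
    exact InnerProductSpace.toDual_symm_apply
  rw [← h1, EuclideanSpace.inner_single_right]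
  simp

private theorem grad_contDiffAt {f : E → ℝ} {x : E} (h : ContDiffAt ℝ 2 f x) :
    ContDiffAt ℝ 1 (gradient f) x := by
  rw [contDiffAt_euclidean]
  intro i
  have h1 : (fun x => gradient f x i) =
      fun x => fderiv ℝ f x (EuclideanSpace.single i (1 : ℝ)) := funext fun x => grad_coord f x i
  rw [h1]
  exact (h.fderiv_right (m := 1) (by norm_num)).clm_apply contDiffAt_const

theorem exists_field {V U : Set E} {f : E → ℝ} (hV : IsCompact (closure V)) (hU : IsOpen U)
    (hVU : closure V ⊆ U) (hf : ContDiffOn ℝ 2 f U) (hcrit : ∀ x ∈ closure V, gradient f x ≠ 0) :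
    ∃ X : E → E, ContDiff ℝ 1 X ∧ HasCompactSupport X ∧
      ∃ O, IsOpen O ∧ closure V ⊆ O ∧ ∀ x ∈ O, X x = (‖gradient f x‖ ^ 2)⁻¹ • gradient f x := by
  have hU' : IsOpen (U ∩ gradient f ⁻¹' {0}ᶜ) := by
    have h1 : ContinuousOn (gradient f) U := fun x hx =>
      (grad_contDiffAt (hf.contDiffAt (hU.mem_nhds hx))).continuousAt.continuousWithinAt
    exact h1.isOpen_inter_preimage hU isOpen_compl_singleton
  have hKU : closure V ⊆ U ∩ gradient f ⁻¹' {0}ᶜ := fun x hx => ⟨hVU hx, hcrit x hx⟩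
  obtain ⟨L, hL, hKL, hLU⟩ := exists_compact_between hV hU' hKU
  obtain ⟨χ, h1, h2, -⟩ := exists_contMDiffMap_one_nhds_of_subset_interior (n := ⊤)
    (modelWithCornersSelf ℝ E) isClosed_closure hKL
  have hχ : ContDiff ℝ 1 χ := χ.contMDiff.contDiff.of_le (by simp)
  obtain ⟨O, hO, hKO, hOχ⟩ := eventually_nhdsSet_iff_exists.1 h1
  refine ⟨fun x => χ x • ((‖gradient f x‖ ^ 2)⁻¹ • gradient f x), ?_, ?_, O, hO, hKO, ?_⟩
  · rw [contDiff_iff_contDiffAt]
    intro x
    by_cases hx : x ∈ U ∩ gradient f ⁻¹' {0}ᶜ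
    · have h3 := grad_contDiffAt (hf.contDiffAt (hU.mem_nhds hx.1))
      have h4 : ‖gradient f x‖ ^ 2 ≠ 0 := pow_ne_zero 2 (norm_ne_zero_iff.2 hx.2)
      exact hχ.contDiffAt.smul (((h3.norm_sq ℝ).inv h4).smul h3)
    · have hxL : x ∉ L := fun h => hx (hLU h)
      have h3 : (fun x => χ x • ((‖gradient f x‖ ^ 2)⁻¹ • gradient f x)) =ᶠ[𝓝 x] fun _ => 0 := by
        filter_upwards [hL.isClosed.isOpen_compl.mem_nhds hxL] with y hy
        rw [h2 y hy, zero_smul]
      exact contDiffAt_const.congr_of_eventuallyEq h3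
  · refine HasCompactSupport.intro hL fun x hx => ?_
    rw [h2 x hx, zero_smul]
  · intro x hx
    show χ x • _ = _
    rw [hOχ x hx, one_smul]

end Pool.Agent.Work.MP_d70a14_gt

end
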