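import Pool.Agent.Work.MP_d70a14_gt.C.Susp

/-! # Flat level surfaces (M)

Write `s (x, v) = ⟪∇f x, v⟫`.  `Cset false` is open (`cset_isOpen`), and invariant: if `x ∈ V`, `t > 0` and `x + r v ∈ V` for `0 ≤ r ≤ t`, then
`(x, v) ∈ Cset false ↔ (x + t v, v) ∈ Cset false` (by `Flow.trans` with `Flow.free`, and `Flow.cut`/`Flow.det`, for the reversed rays).
(1) If `x + r v ∈ V` for `0 ≤ r ≤ 1` then `s (x, v) > 0` implies `s (x + v, v) ≥ 0`: otherwise let `v = t v₁` with `‖v₁‖ < 1`, `t > 0`: the set of `(x', v')`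
near `(x, v₁)` with `s (x', v') > 0`, `s (x' + t v', v') < 0` and the segment `[x', x' + t v']` in `V` contains an open set `O ≠ ∅`.  For a.e. `(x', v') ∈ O`
`Half` gives `(x', v') ∈ Cset false`, and, since `(x', v') ↦ (x' + t v', v')` preserves the volume, also `(x' + t v', v') ∉ Cset false`: this
contradicts the invariance.  The same with `<` and `≤`: `s (x, v) < 0` implies `s (x + v, v) ≤ 0`.
(2) `s (x, v) = 0` implies `s (x + v, v) = 0`: apply (1) to `v ± ε ∇f x` (`ε → 0`; the segment stays in `V` by compactness; `∇f x ≠ 0`).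
`flat`: by (2) applied to `r v` the derivative of `r ↦ f (x + r v)` is `0` on `[0, 1]`.
`lev`: if `s (x, v) > 0` (`v = y - x`) then by (1) the derivative of `r ↦ f (x + r v)` is `≥ 0` on `[0, 1]` and `> 0` at `0`: `f y > f x`; the same with `< 0`. -/

open MeasureTheory Set Metric Filter Topology
open scoped RealInnerProductSpace ContDiff ENNReal

noncomputable section

namespace Pool.Agent.Work.MP_d70a14_gt

variable {V : Set E} {K : Bool → Set P2} {ι : Bool → P2 →ᵃⁱ[ℝ] E} {f : E → ℝ} {X : E → E}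
  {γ : ℝ → E → E}


private def InvC (V : Set E) (C : Set (E × E)) : Prop :=
  ∀ (x v : E) (t : ℝ), 0 < t → (∀ r : ℝ, 0 ≤ r → r ≤ t → x + r • v ∈ V) →
    ((x, v) ∈ C ↔ (x + t • v, v) ∈ C)

private def HalfC (V : Set E) (C : Set (E × E)) (f : E → ℝ) : Prop :=
  ∀ᵐ q : E × E, q.1 ∈ V → ‖q.2‖ < 1 → (0 < rate f q → q ∈ C) ∧ (rate f q < 0 → q ∉ C)

private theorem rate_fderiv (f : E → ℝ) (q : E × E) : rate f q = fderiv ℝ f q.1 q.2 := by
  unfold rate gradient
  exact InnerProductSpace.toDual_symm_apply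

private theorem rate_neg_fun (f : E → ℝ) (q : E × E) : rate (fun x => -f x) q = -rate f q := by
  rw [rate_fderiv, rate_fderiv]
  have h1 : fderiv ℝ (fun x => -f x) q.1 = -fderiv ℝ f q.1 := fderiv_neg
  rw [h1]
  rfl

private theorem rate_smul (f : E → ℝ) (x v : E) (c : ℝ) : rate f (x, c • v) = c * rate f (x, v) := by
  unfold rate
  rw [real_inner_smul_right]

private theorem inv_compl {C : Set (E × E)} (h : InvC V C) : InvC V Cᶜ := by
  intro x v t ht hr
  rw [mem_compl_iff, mem_compl_iff, not_iff_not]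
  exact h x v t ht hr

private theorem half_compl {C : Set (E × E)} (h : HalfC V C f) : HalfC V Cᶜ (fun x => -f x) := by
  unfold HalfC at h ⊢
  filter_upwards [h] with q hq h1 h2
  obtain ⟨h3, h4⟩ := hq h1 h2
  rw [rate_neg_fun]
  exact ⟨fun h5 => h4 (by linarith), fun h5 h6 => h6 (h3 (by linarith))⟩

private theorem inv_cset (hb : Body V K ι) : InvC V (Cset V K ι false) := by
  intro x v t ht hr
  have hx : x ∈ V := by
    have := hr 0 le_rfl ht.le
    rwa [zero_smul, add_zero] at this
  have hxt : x + t • v ∈ V := hr t ht.le le_rfl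
  have hback : (x + t • v) + t • (-v) = x := by module
  have hfree : Flow V (Wall V K ι) 0 (x + t • v) (-v) t x (-v) := by
    have h1 : Flow V (Wall V K ι) 0 (x + t • v) (-v) t ((x + t • v) + t • (-v)) (-v) := by
      refine Flow.free ht fun s hs hst => ?_
      have h2 : (x + t • v) + s • (-v) = x + (t - s) • v := by module
      rw [h2]
      exact hr _ (by linarith) (by linarith)
    rwa [hback] at h1
  constructor
  · rintro ⟨-, k, T, y, w, n, h1, h2, h3, h4⟩
    exact ⟨hxt, _, _, y, w, n, Flow.trans hfree hx h1, h2, h3, h4⟩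
  · rintro ⟨-, hL⟩
    have hd := end_disjoint hb false
    obtain ⟨h1, h2⟩ := st_eq hb.isOpen Body.wall_sub hfree hx
    have h3 := leaves_live hb.isOpen Body.wall_sub hd.1 hd.2 hL h1
    rw [h2] at h3
    exact ⟨hx, h3⟩

private theorem shear_mp (t : ℝ) : MeasurePreserving (fun q : E × E => (q.1 + t • q.2, q.2))
    (volume.prod volume) (volume.prod volume) := by
  have h1 : MeasurePreserving (fun q : E × E => (q.1, q.2 + t • q.1))
      ((volume : Measure E).prod volume) (volume.prod volume) := by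
    refine MeasurePreserving.skew_product (g := fun a b => b + t • a) (MeasurePreserving.id _) ?_ ?_
    · apply Continuous.measurable
      unfold Function.uncurry
      fun_prop
    · refine Eventually.of_forall fun a => ?_
      exact (measurePreserving_add_right (volume : Measure E) (t • a)).map_eq
  have h2 := (Measure.measurePreserving_swap (μ := (volume : Measure E))
    (ν := (volume : Measure E)))
  exact (h2.comp h1).comp h2

private theorem rate_contAt {U : Set E} (hU : IsOpen U) (hf : ContDiffOn ℝ 1 f U) {x : E}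
    (hx : x ∈ U) (v : E) : ContinuousAt (rate f) (x, v) := by
  have h1 : ContinuousOn (fderiv ℝ f) U := hf.continuousOn_fderiv_of_isOpen hU le_rfl
  have h2 : ContinuousAt (fun q : E × E => fderiv ℝ f q.1) (x, v) :=
    ContinuousAt.comp (f := Prod.fst) (g := fderiv ℝ f) (h1.continuousAt (hU.mem_nhds hx))
      continuousAt_fst
  have h3 : rate f = fun q : E × E => fderiv ℝ f q.1 q.2 := funext fun q => rate_fderiv f q
  rw [h3]
  exact h2.clm_apply continuousAt_snd

private theorem tube (hV : IsOpen V) {x v : E} {t : ℝ}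
    (h : ∀ r : ℝ, 0 ≤ r → r ≤ t → x + r • v ∈ V) :
    ∀ᶠ q : E × E in 𝓝 (x, v), ∀ r ∈ Icc 0 t, q.1 + r • q.2 ∈ V := by
  apply isCompact_Icc.eventually_forall_of_forall_eventually
  intro s hs
  have hc : Continuous fun z : (E × E) × ℝ => z.1.1 + z.2 • z.1.2 := by fun_prop
  exact hc.continuousAt.eventually_mem (hV.mem_nhds (h s hs.1 hs.2))

private theorem step1 (hV : IsOpen V) {U : Set E} (hU : IsOpen U) (hVU : closure V ⊆ U)
    (hf : ContDiffOn ℝ 1 f U) {C : Set (E × E)} (hinv : InvC V C) (hhalf : HalfC V C f) {x v : E}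
    (hseg : ∀ r : ℝ, 0 ≤ r → r ≤ 1 → x + r • v ∈ V) (hs : 0 < rate f (x, v)) :
    0 ≤ rate f (x + v, v) := by
  by_contra hcon
  rw [not_le] at hcon
  set t : ℝ := ‖v‖ + 1 with ht
  have htpos : 0 < t := by positivity
  set v₁ : E := t⁻¹ • v with hv₁
  have hv : v = t • v₁ := by
    rw [hv₁, smul_smul, mul_inv_cancel₀ htpos.ne', one_smul]
  have hn : ‖v₁‖ < 1 := by
    rw [hv₁, norm_smul, norm_inv, Real.norm_eq_abs, abs_of_pos htpos, inv_mul_lt_iff₀ htpos, ht]
    linarith
  have hseg' : ∀ r : ℝ, 0 ≤ r → r ≤ t → x + r • v₁ ∈ V := by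
    intro r hr hrt
    have h1 := hseg (r * t⁻¹) (by positivity) (by
      rw [← div_eq_mul_inv, div_le_one htpos]
      exact hrt)
    rwa [← smul_smul] at h1
  have hxV : x ∈ V := by
    have := hseg 0 le_rfl zero_le_one
    rwa [zero_smul, add_zero] at this
  have hxtV : x + t • v₁ ∈ V := hseg' t htpos.le le_rfl
  have hs1 : 0 < rate f (x, v₁) := by
    rw [hv₁, rate_smul]
    positivity
  have hs2 : rate f (x + t • v₁, v₁) < 0 := by
    rw [← hv]
    rw [hv₁, rate_smul]
    exact mul_neg_of_pos_of_neg (by positivity) hcon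
  have e1 : ∀ᶠ q : E × E in 𝓝 (x, v₁), ‖q.2‖ < 1 := by
    have h1 : ContinuousAt (fun q : E × E => ‖q.2‖) (x, v₁) := by fun_prop
    exact h1.eventually_lt continuousAt_const hn
  have e2 : ∀ᶠ q : E × E in 𝓝 (x, v₁), 0 < rate f q :=
    (rate_contAt hU hf (hVU (subset_closure hxV)) v₁).eventually_const_lt hs1
  have e3 : ∀ᶠ q : E × E in 𝓝 (x, v₁), rate f (q.1 + t • q.2, q.2) < 0 := by
    have h1 : ContinuousAt (fun q : E × E => (q.1 + t • q.2, q.2)) (x, v₁) := by fun_prop
    have h2 : ContinuousAt (rate f) ((fun q : E × E => (q.1 + t • q.2, q.2)) (x, v₁)) :=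
      rate_contAt hU hf (hVU (subset_closure hxtV)) v₁
    exact (ContinuousAt.comp (f := fun q : E × E => (q.1 + t • q.2, q.2)) (g := rate f) h2
      h1).eventually_lt continuousAt_const hs2
  have e4 := tube hV hseg'
  have hpos := Measure.measure_pos_of_mem_nhds (volume : Measure (E × E))
    ((e1.and e2).and (e3.and e4))
  have e5 := (shear_mp t).quasiMeasurePreserving.ae hhalf
  have e6 : ∀ᵐ q : E × E, q ∉ {q : E × E | (‖q.2‖ < 1 ∧ 0 < rate f q) ∧
      rate f (q.1 + t • q.2, q.2) < 0 ∧ ∀ r ∈ Icc 0 t, q.1 + r • q.2 ∈ V} := by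
    filter_upwards [hhalf, e5] with q h1 h2 h3
    obtain ⟨⟨h4, h5⟩, h6, h7⟩ := h3
    have h8 : q.1 ∈ V := by
      have := h7 0 ⟨le_rfl, htpos.le⟩
      rwa [zero_smul, add_zero] at this
    have h9 := (h1 h8 h4).1 h5
    have h10 := (h2 (h7 t ⟨htpos.le, le_rfl⟩) h4).2 h6
    exact h10 ((hinv q.1 q.2 t htpos fun r hr hrt => h7 r ⟨hr, hrt⟩).1 h9)
  exact hpos.ne' (measure_eq_zero_iff_ae_notMem.2 e6)

private theorem step2 (hV : IsOpen V) {U : Set E} (hU : IsOpen U) (hVU : closure V ⊆ U)
    (hf : ContDiffOn ℝ 1 f U) {C : Set (E × E)} (hinv : InvC V C) (hhalf : HalfC V C f) {x v : E}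
    (hcrit : gradient f x ≠ 0)
    (hseg : ∀ r : ℝ, 0 ≤ r → r ≤ 1 → x + r • v ∈ V) (hs : rate f (x, v) = 0) :
    0 ≤ rate f (x + v, v) := by
  have hxV : x + v ∈ V := by
    have := hseg 1 zero_le_one le_rfl
    rwa [one_smul] at this
  have h1 : Continuous fun ε : ℝ => v + ε • gradient f x := by fun_prop
  have h2 : Tendsto (fun ε : ℝ => ((x, v + ε • gradient f x) : E × E)) (𝓝[>] 0) (𝓝 (x, v)) := by
    have h3 : Continuous fun ε : ℝ => ((x, v + ε • gradient f x) : E × E) := by fun_prop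
    have h4 := h3.tendsto 0
    simp only [zero_smul, add_zero] at h4
    exact h4.mono_left nhdsWithin_le_nhds
  have h5 : ∀ᶠ ε : ℝ in 𝓝[>] 0, 0 ≤ rate f (x + (v + ε • gradient f x), v + ε • gradient f x) := by
    filter_upwards [h2.eventually (tube hV hseg), self_mem_nhdsWithin] with ε h6 h7
    refine step1 hV hU hVU hf hinv hhalf (fun r hr hr1 => h6 r ⟨hr, hr1⟩) ?_
    have h8 : rate f (x, v + ε • gradient f x) = rate f (x, v) + ε * ‖gradient f x‖ ^ 2 := by
      unfold rate
      rw [inner_add_right, real_inner_smul_right, real_inner_self_eq_norm_sq]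
    rw [h8, hs, zero_add]
    have h9 : 0 < ‖gradient f x‖ := norm_pos_iff.2 hcrit
    have h10 : (0 : ℝ) < ε := h7
    positivity
  have h6 : Tendsto (fun ε : ℝ => rate f (x + (v + ε • gradient f x), v + ε • gradient f x)) (𝓝[>] 0)
      (𝓝 (rate f (x + v, v))) := by
    have h7 : Continuous fun ε : ℝ =>
      ((x + (v + ε • gradient f x), v + ε • gradient f x) : E × E) := by fun_prop
    have h8 := h7.tendsto 0
    simp only [zero_smul, add_zero] at h8
    exact (rate_contAt hU hf (hVU (subset_closure hxV)) v).tendsto.comp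
      (h8.mono_left nhdsWithin_le_nhds)
  exact ge_of_tendsto h6 h5

private theorem grad_neg (f : E → ℝ) (x : E) : gradient (fun x => -f x) x = -gradient f x := by
  unfold gradient
  have h1 : fderiv ℝ (fun x => -f x) x = -fderiv ℝ f x := fderiv_neg
  rw [h1, map_neg]

private theorem seg_mem {x y : E} (hs : segment ℝ x y ⊆ V) :
    ∀ r : ℝ, 0 ≤ r → r ≤ 1 → x + r • (y - x) ∈ V := by
  intro r h1 h2
  apply hs
  rw [segment_eq_image']
  exact ⟨r, ⟨h1, h2⟩, rfl⟩

private theorem line_der {U : Set E} (hU : IsOpen U) (hf : ContDiffOn ℝ 1 f U) {x v : E} {r : ℝ}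
    (hx : x + r • v ∈ U) : HasDerivAt (fun r : ℝ => f (x + r • v)) (rate f (x + r • v, v)) r := by
  have h8 : HasDerivAt (fun r : ℝ => x + r • v) v r := by
    have := ((hasDerivAt_id r).smul_const v).const_add x
    simpa using this
  have h9 : HasFDerivAt f (fderiv ℝ f (x + r • v)) (x + r • v) :=
    ((hf.contDiffAt (hU.mem_nhds hx)).differentiableAt one_ne_zero).hasFDerivAt
  rw [rate_fderiv]
  exact h9.comp_hasDerivAt r h8

private theorem lev_aux (hV : IsOpen V) {U : Set E} (hU : IsOpen U) (hVU : closure V ⊆ U)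
    (hf : ContDiffOn ℝ 1 f U) {C : Set (E × E)} (hinv : InvC V C) (hhalf : HalfC V C f) {x v : E}
    (hseg : ∀ r : ℝ, 0 ≤ r → r ≤ 1 → x + r • v ∈ V) (hxy : f x = f (x + v)) :
    rate f (x, v) ≤ 0 := by
  by_contra hcon
  rw [not_le] at hcon
  have hU' : ∀ r : ℝ, 0 ≤ r → r ≤ 1 → x + r • v ∈ U := fun r h1 h2 =>
    hVU (subset_closure (hseg r h1 h2))
  have hder : ∀ r : ℝ, 0 ≤ r → r ≤ 1 →
      HasDerivAt (fun r : ℝ => f (x + r • v)) (rate f (x + r • v, v)) r :=
    fun r h1 h2 => line_der hU hf (hU' r h1 h2)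
  have hnn : ∀ r : ℝ, 0 < r → r ≤ 1 → 0 ≤ rate f (x + r • v, v) := by
    intro r h1 h2
    have h3 : 0 < rate f (x, r • v) := by
      rw [rate_smul]
      positivity
    have h4 := step1 hV hU hVU hf hinv hhalf (v := r • v) (fun s hs hs1 => by
      rw [smul_smul]
      exact hseg (s * r) (by positivity) (by nlinarith)) h3
    rw [rate_smul] at h4
    exact nonneg_of_mul_nonneg_right h4 h1
  have hmono : MonotoneOn (fun r : ℝ => f (x + r • v)) (Icc 0 1) := by
    apply monotoneOn_of_deriv_nonneg (convex_Icc 0 1)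
    · exact fun r hr => (hder r hr.1 hr.2).continuousAt.continuousWithinAt
    · intro r hr
      rw [interior_Icc] at hr
      exact (hder r hr.1.le hr.2.le).differentiableAt.differentiableWithinAt
    · intro r hr
      rw [interior_Icc] at hr
      rw [(hder r hr.1.le hr.2.le).deriv]
      exact hnn r hr.1 hr.2.le
  have hev : ∀ᶠ r : ℝ in 𝓝 0, 0 < rate f (x + r • v, v) := by
    have h1 : ContinuousAt (fun r : ℝ => ((x + r • v, v) : E × E)) 0 := by fun_prop
    have h2 : ContinuousAt (rate f) ((fun r : ℝ => ((x + r • v, v) : E × E)) 0) := by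
      apply rate_contAt hU hf
      exact hU' 0 le_rfl zero_le_one
    have h3 : ContinuousAt (fun r : ℝ => rate f (x + r • v, v)) 0 :=
      ContinuousAt.comp (f := fun r : ℝ => ((x + r • v, v) : E × E)) (g := rate f) h2 h1
    apply h3.eventually_const_lt
    simp only [zero_smul, add_zero]
    exact hcon
  obtain ⟨δ, hδ, hδ'⟩ := Metric.eventually_nhds_iff.1 hev
  set d := min (δ / 2) 1 with hd
  have hd0 : 0 < d := lt_min (by positivity) one_pos
  have hd1 : d ≤ 1 := min_le_right _ _
  have hstrict : StrictMonoOn (fun r : ℝ => f (x + r • v)) (Icc 0 d) := by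
    apply strictMonoOn_of_deriv_pos (convex_Icc 0 d)
    · exact fun r hr => (hder r hr.1 (hr.2.trans hd1)).continuousAt.continuousWithinAt
    · intro r hr
      rw [interior_Icc] at hr
      rw [(hder r hr.1.le (hr.2.le.trans hd1)).deriv]
      apply hδ'
      rw [Real.dist_eq, sub_zero, abs_of_pos hr.1]
      have := min_le_left (δ / 2) 1
      linarith [hr.2]
  have h1 := hstrict (left_mem_Icc.2 hd0.le) (right_mem_Icc.2 hd0.le) hd0
  have h2 := hmono ⟨hd0.le, hd1⟩ (right_mem_Icc.2 zero_le_one) hd1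
  simp only [zero_smul, add_zero, one_smul] at h1 h2
  linarith

theorem lev_of_half (hb : Body V K ι) {U : Set E} (hU : IsOpen U) (hVU : closure V ⊆ U)
    (hf : ContDiffOn ℝ 1 f U) (hcrit : ∀ x ∈ V, gradient f x ≠ 0) (h : Half V K ι f) {x y : E}
    (hs : segment ℝ x y ⊆ V) (hxy : f x = f y) : ⟪gradient f x, y - x⟫ = 0 := by
  have hinv := inv_cset hb
  have hhalf : HalfC V (Cset V K ι false) f := h
  have hseg := seg_mem hs
  have h1 := lev_aux hb.isOpen hU hVU hf hinv hhalf hseg (by rw [add_sub_cancel]; exact hxy)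
  have h2 := lev_aux hb.isOpen hU hVU (f := fun x => -f x) hf.neg (inv_compl hinv)
    (half_compl hhalf) hseg (by rw [add_sub_cancel, hxy])
  rw [rate_neg_fun] at h2
  have h3 : rate f (x, y - x) = 0 := by linarith
  exact h3

theorem flat_of_half (hb : Body V K ι) {U : Set E} (hU : IsOpen U) (hVU : closure V ⊆ U)
    (hf : ContDiffOn ℝ 1 f U) (hcrit : ∀ x ∈ V, gradient f x ≠ 0) (h : Half V K ι f) {x y : E}
    (hs : segment ℝ x y ⊆ V) (hxy : ⟪gradient f x, y - x⟫ = 0) : f y = f x := by
  have hinv := inv_cset hb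
  have hhalf : HalfC V (Cset V K ι false) f := h
  have hseg := seg_mem hs
  have hxV : x ∈ V := hs (left_mem_segment ℝ x y)
  have hU' : ∀ r : ℝ, 0 ≤ r → r ≤ 1 → x + r • (y - x) ∈ U := fun r h1 h2 =>
    hVU (subset_closure (hseg r h1 h2))
  have hzero : ∀ r : ℝ, 0 < r → r ≤ 1 → rate f (x + r • (y - x), y - x) = 0 := by
    intro r h1 h2
    have h3 : rate f (x, r • (y - x)) = 0 := by
      rw [rate_smul]
      show r * ⟪gradient f x, y - x⟫ = 0
      rw [hxy, mul_zero]
    have hseg' : ∀ s : ℝ, 0 ≤ s → s ≤ 1 → x + s • r • (y - x) ∈ V := fun s hs hs1 => by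
      rw [smul_smul]
      exact hseg (s * r) (by positivity) (by nlinarith)
    have h4 := step2 hb.isOpen hU hVU hf hinv hhalf (hcrit x hxV) hseg' h3
    have h5 := step2 hb.isOpen hU hVU (f := fun x => -f x) hf.neg (inv_compl hinv)
      (half_compl hhalf) (by rw [grad_neg]; exact neg_ne_zero.2 (hcrit x hxV)) hseg' (by
        rw [rate_neg_fun, h3, neg_zero])
    rw [rate_neg_fun, rate_smul] at h5
    rw [rate_smul] at h4
    have h6 : r * rate f (x + r • (y - x), y - x) = 0 := by linarith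
    exact (mul_eq_zero.1 h6).resolve_left h1.ne'
  have hder : ∀ r : ℝ, 0 ≤ r → r ≤ 1 →
      HasDerivAt (fun r : ℝ => f (x + r • (y - x))) 0 r := by
    intro r h1 h2
    have h3 := line_der hU hf (hU' r h1 h2)
    rcases eq_or_lt_of_le h1 with h4 | h4
    · have h5 : rate f (x + r • (y - x), y - x) = 0 := by
        rw [← h4, zero_smul, add_zero]
        exact hxy
      rwa [h5] at h3
    · rwa [hzero r h4 h2] at h3
  have h1 := constant_of_has_deriv_right_zero (f := fun r : ℝ => f (x + r • (y - x))) (a := 0) (b := 1)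
    (fun r hr => (hder r hr.1 hr.2).continuousAt.continuousWithinAt)
    (fun r hr => (hder r hr.1 hr.2.le).hasDerivWithinAt) 1 (right_mem_Icc.2 zero_le_one)
  simp only [zero_smul, add_zero, one_smul, add_sub_cancel] at h1
  exact h1

end Pool.Agent.Work.MP_d70a14_gt

end
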