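import Pool.Agent.Work.MP_d70a14_gt.Defs

/-! # The flow of a vector field with compact support (M)

`X` is bounded and Lipschitz (`ContDiff.lipschitzWith_of_hasCompactSupport`).  Existence on every interval `[-T, T]` by `IsPicardLindelof` (radius `C T`),
uniqueness by `ODE_solution_unique` (or `ODE_solution_unique_univ`); glue to a solution on `ℝ` (or use the group property of short time solutions).
Group property by uniqueness; continuity: `‖γ t x - γ t y‖ ≤ exp (L |t|) ‖x - y‖` (Gronwall, `dist_le_of_trajectories_ODE`) and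
`‖γ t x - γ s x‖ ≤ C |t - s|`. -/

open MeasureTheory Set Metric Filter Topology
open scoped RealInnerProductSpace ContDiff ENNReal

noncomputable section

namespace Pool.Agent.Work.MP_d70a14_gt

theorem exists_flow {X : E → E} (hX : ContDiff ℝ 1 X) (hs : HasCompactSupport X) :
    ∃ γ : ℝ → E → E, (∀ x, γ 0 x = x) ∧ (∀ x t, HasDerivAt (fun t => γ t x) (X (γ t x)) t) ∧
      (∀ s t x, γ s (γ t x) = γ (s + t) x) ∧ Continuous fun p : ℝ × E => γ p.1 p.2 := by
  obtain ⟨K, hK⟩ := ContDiff.lipschitzWith_of_hasCompactSupport hs hX one_ne_zero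
  obtain ⟨C₀, hC₀⟩ := hX.continuous.bounded_above_of_compact_support hs
  obtain ⟨C, hC⟩ : ∃ C : NNReal, ∀ x, ‖X x‖ ≤ C :=
    ⟨C₀.toNNReal, fun x => (hC₀ x).trans (Real.le_coe_toNNReal _)⟩
  have hex : ∀ n : ℕ, ∃ α : E × ℝ → E, (∀ x ∈ closedBall (0 : E) n, α ⟨x, 0⟩ = x ∧
      ∀ t ∈ Icc (-(n : ℝ)) n, HasDerivWithinAt (α ⟨x, ·⟩) (X (α ⟨x, t⟩)) (Icc (-(n : ℝ)) n) t) ∧
      ContinuousOn α (closedBall (0 : E) n ×ˢ Icc (-(n : ℝ)) n) := by
    intro n
    have hn0 : (0 : ℝ) ≤ n := Nat.cast_nonneg n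
    have hpl : IsPicardLindelof (fun _ : ℝ => X) (tmin := -(n : ℝ)) (tmax := n)
        ⟨0, by constructor <;> linarith⟩ (0 : E) (C * n + n) n C K := by
      refine ⟨fun _ _ => hK.lipschitzOnWith, fun _ _ => continuousOn_const, fun _ _ x _ => hC x, ?_⟩
      simp
    obtain ⟨α, h1, h2⟩ := hpl.exists_forall_mem_closedBall_eq_hasDerivWithinAt_continuousOn
    exact ⟨α, h1, h2⟩
  choose α hα1 hα2 using hex
  have hder : ∀ (n : ℕ) (x : E), ‖x‖ ≤ n → ∀ t : ℝ, |t| < n →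
      HasDerivAt (fun s => α n (x, s)) (X (α n (x, t))) t := by
    intro n x hx t ht
    obtain ⟨h1, h2⟩ := abs_lt.1 ht
    exact ((hα1 n x (by rwa [mem_closedBall, dist_zero_right])).2 t ⟨h1.le, h2.le⟩).hasDerivAt
      (Icc_mem_nhds h1 h2)
  have hinit : ∀ (n : ℕ) (x : E), ‖x‖ ≤ n → α n (x, 0) = x := fun n x hx =>
    (hα1 n x (by rwa [mem_closedBall, dist_zero_right])).1
  have huniq' : ∀ (m n : ℕ), m ≤ n → ∀ x : E, ‖x‖ ≤ m → ∀ t : ℝ, |t| < m →
      α m (x, t) = α n (x, t) := by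
    intro m n hmn x hx t ht
    have hmn' : (m : ℝ) ≤ n := by exact_mod_cast hmn
    have hm0 : (0 : ℝ) < m := lt_of_le_of_lt (abs_nonneg t) ht
    have h1 := ODE_solution_unique_of_mem_Ioo (v := fun _ : ℝ => X) (s := fun _ => univ) (K := K)
      (f := fun s => α m (x, s)) (g := fun s => α n (x, s)) (a := -(m : ℝ)) (b := m) (t₀ := 0)
      (fun _ _ => hK.lipschitzOnWith) ⟨by linarith, hm0⟩
      (fun s hs' => ⟨hder m x hx s (abs_lt.2 hs'), mem_univ _⟩)
      (fun s hs' => ⟨hder n x (hx.trans hmn') s (lt_of_lt_of_le (abs_lt.2 hs') hmn'), mem_univ _⟩)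
      (by
        show α m (x, 0) = α n (x, 0)
        rw [hinit m x hx, hinit n x (hx.trans hmn')])
    exact h1 (abs_lt.1 ht)
  have huniq : ∀ (m n : ℕ) (x : E), ‖x‖ ≤ m → ‖x‖ ≤ n → ∀ t : ℝ, |t| < m → |t| < n →
      α m (x, t) = α n (x, t) := by
    intro m n x h1 h2 t h3 h4
    rcases le_total m n with h | h
    · exact huniq' m n h x h1 t h3
    · exact (huniq' n m h x h2 t h4).symm
  obtain ⟨γ, hγ⟩ : ∃ γ : ℝ → E → E, ∀ (n : ℕ) (t : ℝ) (x : E), ‖x‖ ≤ n → |t| < n →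
      γ t x = α n (x, t) := by
    refine ⟨fun t x => α (⌈‖x‖⌉₊ + ⌈|t|⌉₊ + 1) (x, t), fun n t x hx ht => ?_⟩
    refine huniq _ _ x ?_ hx t ?_ ht
    · have h1 := Nat.le_ceil ‖x‖
      have h2 : (0 : ℝ) ≤ (⌈|t|⌉₊ : ℝ) := Nat.cast_nonneg _
      push_cast
      linarith
    · have h1 := Nat.le_ceil |t|
      have h2 : (0 : ℝ) ≤ (⌈‖x‖⌉₊ : ℝ) := Nat.cast_nonneg _
      push_cast
      linarith
  have hbig : ∀ (t : ℝ) (x : E), ∃ n : ℕ, ‖x‖ < n ∧ |t| < n := by
    intro t x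
    obtain ⟨n, hn⟩ := exists_nat_gt (max ‖x‖ |t|)
    exact ⟨n, lt_of_le_of_lt (le_max_left _ _) hn, lt_of_le_of_lt (le_max_right _ _) hn⟩
  have hzero : ∀ x, γ 0 x = x := by
    intro x
    obtain ⟨n, h1, h2⟩ := hbig 0 x
    rw [hγ n 0 x h1.le h2, hinit n x h1.le]
  have hderiv : ∀ x t, HasDerivAt (fun t => γ t x) (X (γ t x)) t := by
    intro x t
    obtain ⟨n, h1, h2⟩ := hbig t x
    rw [hγ n t x h1.le h2]
    refine (hder n x h1.le t h2).congr_of_eventuallyEq ?_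
    have h3 : ∀ᶠ s : ℝ in 𝓝 t, |s| < n := continuous_abs.continuousAt.eventually_lt_const h2
    filter_upwards [h3] with s hs'
    exact hγ n s x h1.le hs'
  refine ⟨γ, hzero, hderiv, fun s t x => ?_, ?_⟩
  · have h1 := ODE_solution_unique_univ (v := fun _ : ℝ => X) (s := fun _ => univ) (K := K)
      (f := fun s => γ s (γ t x)) (g := fun s => γ (s + t) x) (t₀ := 0)
      (fun _ => hK.lipschitzOnWith) (fun s => ⟨hderiv (γ t x) s, mem_univ _⟩)
      (fun s => ⟨(hderiv x (s + t)).comp_add_const s t, mem_univ _⟩)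
      (by
        show γ 0 (γ t x) = γ (0 + t) x
        rw [hzero, zero_add])
    exact congrFun h1 s
  · rw [continuous_iff_continuousAt]
    rintro ⟨t, x⟩
    obtain ⟨n, h1, h2⟩ := hbig t x
    have h3 : ContinuousAt (α n) (x, t) := by
      refine (hα2 n).continuousAt (prod_mem_nhds ?_ ?_)
      · exact Metric.closedBall_mem_nhds_of_mem (by rwa [mem_ball, dist_zero_right])
      · obtain ⟨h4, h5⟩ := abs_lt.1 h2
        exact Icc_mem_nhds h4 h5
    have h4 : ContinuousAt (fun p : ℝ × E => α n (p.2, p.1)) (t, x) :=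
      ContinuousAt.comp (f := fun p : ℝ × E => (p.2, p.1)) (g := α n) h3
        (continuous_snd.prodMk continuous_fst).continuousAt
    refine h4.congr ?_
    have h5 : ∀ᶠ p : ℝ × E in 𝓝 (t, x), |p.1| < n :=
      (continuous_abs.comp continuous_fst).continuousAt.eventually_lt_const h2
    have h6 : ∀ᶠ p : ℝ × E in 𝓝 (t, x), ‖p.2‖ < n :=
      (continuous_norm.comp continuous_snd).continuousAt.eventually_lt_const h1
    filter_upwards [h5, h6] with p h7 h8
    exact (hγ n p.1 p.2 h8.le h7).symm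

end Pool.Agent.Work.MP_d70a14_gt

end
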