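import Pool.Agent.Work.MP_d70a14_gt.A.Normal

/-! # The flow stays inside (M)

Fix `x ∈ V`.  As long as `γ t x ∈ closure V`: `d/dt f (γ t x) = ⟪∇f, X⟫ = 1`.  Let `t > 0` (the case `t < 0` is the same with time reversed), `t < 1 - f x`, and suppose that
`γ · x` leaves `V` before or at `t`; let `b > 0` be the first time with `γ b x ∉ V` (`V` open; infimum).  Then `p = γ b x ∈ frontier V`, `f p = f x + b ∈ (0, 1)`
(here `f x > 0` by `mid`, since `x ∈ V` is not in an end: the ends are in the frontier, `Body.ends_frontier`), so `p` is in no end (`end0`, `end1`):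
`p ∈ Wall`, with inner normal `n` and function `ρ` (`C^2` near `p`).  Put `h z = ⟪X z, ∇ρ z⟫` (`C^1` near `p`).  If `z` is near `p` and `ρ z = 0` then `z ∈ Wall` (the ends are closed and
`z` is in the frontier: `InnerNormal V z (∇ρ z / ‖∇ρ z‖)`) and so `h z = 0` by `tan`.
Claim: `|h z| ≤ C |ρ z|` near `p`: with `w = ∇ρ p / ‖∇ρ p‖^2` the derivative of `s ↦ ρ (z + s w)` is near `1`, so there is `s` with `|s| ≤ 2 |ρ z|` and
`ρ (z + s w) = 0` (intermediate value theorem); `h` is Lipschitz near `p`.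
So `g t = ρ (γ t x)` satisfies `|g'| ≤ C |g|` near `b` and `g b = 0`: Gronwall (backwards; `norm_le_gronwallBound_of_norm_deriv_right_le` for
`g (b - s)`) gives `g = 0` on `[b - ε, b]`; but `γ t x ∈ V` there for `t < b`, so `g t > 0`: contradiction. -/

open MeasureTheory Set Metric Filter Topology
open scoped RealInnerProductSpace ContDiff ENNReal

noncomputable section

namespace Pool.Agent.Work.MP_d70a14_gt

variable {V : Set E} {K : Bool → Set P2} {ι : Bool → P2 →ᵃⁱ[ℝ] E} {f : E → ℝ} {X : E → E}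
  {γ : ℝ → E → E}


theorem Sweep.f_pos (h : Sweep V K ι f X γ) {x : E} (hx : x ∈ V) : 0 < f x ∧ f x < 1 := by
  refine h.mid x (subset_closure hx) fun i hi => ?_
  obtain ⟨y, hy, rfl⟩ := hi
  have h1 := h.body.ends_frontier i hy
  rw [h.body.isOpen.frontier_eq] at h1
  exact h1.2 hx

private theorem ins_grad (g : E → ℝ) (z v : E) : ⟪gradient g z, v⟫ = fderiv ℝ g z v := by
  rw [gradient, InnerProductSpace.toDual_symm_apply]

private theorem ins_bound {ρ : E → ℝ} {p n : E} {c₀ : ℝ} (hρ : ContDiffAt ℝ 2 ρ p) (h0 : ρ p = 0)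
    (hn : ‖n‖ = 1) (hc : 0 < c₀) (hg : fderiv ℝ ρ p n = c₀) {X : E → E} (hX : ContDiff ℝ 1 X)
    (hz : ∀ᶠ z in 𝓝 p, ρ z = 0 → fderiv ℝ ρ z (X z) = 0) :
    ∃ C : ℝ, ∀ᶠ z in 𝓝 p, |fderiv ℝ ρ z (X z)| ≤ C * |ρ z| := by
  have hd : ContDiffAt ℝ 1 (fderiv ℝ ρ) p := hρ.fderiv_right (by norm_num)
  have hh : ContDiffAt ℝ 1 (fun z => fderiv ℝ ρ z (X z)) p := hd.clm_apply hX.contDiffAt
  obtain ⟨L, T, hT, hL⟩ := hh.exists_lipschitzOnWith
  have hT' : ∀ᶠ z in 𝓝 p, z ∈ T := hT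
  have h1 : ∀ᶠ z in 𝓝 p, c₀ / 2 < fderiv ℝ ρ z n := by
    have h2 : ContinuousAt (fun z => fderiv ℝ ρ z n) p := hd.continuousAt.clm_apply continuousAt_const
    exact h2.eventually_const_lt (by
      show c₀ / 2 < fderiv ℝ ρ p n
      rw [hg]
      linarith)
  have h2 : ∀ᶠ z in 𝓝 p, DifferentiableAt ℝ ρ z := by
    filter_upwards [hρ.eventually (by simp)] with z hz using hz.differentiableAt (by norm_num)
  obtain ⟨r, hr, hball⟩ := Metric.eventually_nhds_iff_ball.1 (((h1.and h2).and hz).and hT')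
  have h3 : ∀ᶠ z in 𝓝 p, 2 * |ρ z| / c₀ < r / 2 := by
    have h4 : ContinuousAt (fun z => 2 * |ρ z| / c₀) p :=
      ((hρ.continuousAt.abs).const_mul 2).div_const c₀
    refine h4.eventually_lt_const ?_
    show 2 * |ρ p| / c₀ < r / 2
    rw [h0, abs_zero, mul_zero, zero_div]
    linarith
  refine ⟨L * (2 / c₀), ?_⟩
  filter_upwards [ball_mem_nhds p (half_pos hr), h3] with z hz1 hz2
  obtain ⟨σ, hσ, hσa⟩ : ∃ σ : ℝ, σ * σ = 1 ∧ σ * ρ z = -|ρ z| := by
    rcases le_total (ρ z) 0 with h | h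
    · exact ⟨1, by ring, by rw [abs_of_nonpos h]; ring⟩
    · exact ⟨-1, by ring, by rw [abs_of_nonneg h]; ring⟩
  have hσ' : |σ| = 1 := by
    have h4 : |σ| * |σ| = 1 := by rw [← abs_mul, hσ, abs_one]
    nlinarith [abs_nonneg σ]
  obtain ⟨s₀, hs₀⟩ : ∃ s₀, s₀ = 2 * |ρ z| / c₀ := ⟨_, rfl⟩
  have hs₀0 : 0 ≤ s₀ := by
    rw [hs₀]
    positivity
  have hmem : ∀ s ∈ Icc 0 s₀, z + (s * σ) • n ∈ ball p r := by
    intro s hs
    rw [mem_ball, dist_eq_norm] at hz1 ⊢
    have h4 : z + (s * σ) • n - p = (z - p) + (s * σ) • n := by abel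
    have h5 : ‖(s * σ) • n‖ = s := by
      rw [norm_smul, hn, mul_one, Real.norm_eq_abs, abs_mul, hσ', mul_one, abs_of_nonneg hs.1]
    rw [h4]
    refine lt_of_le_of_lt (norm_add_le _ _) ?_
    rw [h5]
    have := hs.2
    rw [hs₀] at this
    linarith
  have hder : ∀ s ∈ Icc 0 s₀, HasDerivAt (fun s : ℝ => σ * ρ (z + (s * σ) • n))
      (fderiv ℝ ρ (z + (s * σ) • n) n) s := by
    intro s hs
    have h4 := ((hball _ (hmem s hs)).1.1.2).hasFDerivAt
    have h5 : HasDerivAt (fun s : ℝ => z + (s * σ) • n) (σ • n) s := by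
      have h6 := (((hasDerivAt_id s).mul_const σ).smul_const n).const_add z
      simpa using h6
    have h6 := (h4.comp_hasDerivAt s h5).const_mul σ
    rw [map_smul, smul_eq_mul, ← mul_assoc, hσ, one_mul] at h6
    exact h6
  have hcont : ContinuousOn (fun s : ℝ => σ * ρ (z + (s * σ) • n)) (Icc 0 s₀) := fun s hs =>
    (hder s hs).continuousAt.continuousWithinAt
  have hmv := (convex_Icc (0 : ℝ) s₀).mul_sub_le_image_sub_of_le_deriv hcont
    (fun s hs => ((hder s (interior_subset hs)).differentiableAt).differentiableWithinAt)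
    (C := c₀ / 2) (fun s hs => by
      rw [(hder s (interior_subset hs)).deriv]
      exact ((hball _ (hmem s (interior_subset hs))).1.1.1).le) 0 (left_mem_Icc.2 hs₀0) s₀
      (right_mem_Icc.2 hs₀0) hs₀0
  have h00 : z + ((0 : ℝ) * σ) • n = z := by rw [zero_mul, zero_smul, add_zero]
  rw [h00, hσa, sub_zero] at hmv
  have h5 : c₀ / 2 * s₀ = |ρ z| := by
    rw [hs₀]
    field_simp
  have h6 : (0 : ℝ) ∈ (fun s : ℝ => σ * ρ (z + (s * σ) • n)) '' Icc 0 s₀ := by
    refine intermediate_value_Icc hs₀0 hcont ⟨?_, ?_⟩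
    · show σ * ρ (z + ((0 : ℝ) * σ) • n) ≤ 0
      rw [h00, hσa]
      have := abs_nonneg (ρ z)
      linarith
    · show 0 ≤ σ * ρ (z + (s₀ * σ) • n)
      linarith
  obtain ⟨s, hs, hs1⟩ := h6
  have hs2 : ρ (z + (s * σ) • n) = 0 := by
    have h7 : σ * ρ (z + (s * σ) • n) = 0 := hs1
    rcases mul_eq_zero.1 h7 with h8 | h8
    · rw [h8] at hσ'
      simp at hσ'
    · exact h8
  have h7 := (hball _ (hmem s hs)).1.2 hs2
  have h8 := hL.dist_le_mul z (hball z (ball_subset_ball (by linarith) hz1)).2 _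
    (hball _ (hmem s hs)).2
  rw [h7, Real.dist_eq, sub_zero, dist_eq_norm] at h8
  have h9 : ‖z - (z + (s * σ) • n)‖ = s := by
    rw [sub_add_cancel_left, norm_neg, norm_smul, hn, mul_one, Real.norm_eq_abs, abs_mul, hσ', mul_one,
      abs_of_nonneg hs.1]
  rw [h9] at h8
  refine h8.trans ?_
  have h10 : L * (2 / c₀) * |ρ z| = L * s₀ := by
    rw [hs₀]
    ring
  rw [h10]
  exact mul_le_mul_of_nonneg_left hs.2 L.coe_nonneg

private theorem Sweep.fX (h : Sweep V K ι f X γ) {z : E} (hz : z ∈ closure V) :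
    DifferentiableAt ℝ f z ∧ fderiv ℝ f z (X z) = 1 := by
  obtain ⟨U, hU, hVU, hf⟩ := h.smooth
  obtain ⟨O, hO, hVO, hXO⟩ := h.X_eq
  refine ⟨(hf.contDiffAt (hU.mem_nhds (hVU hz))).differentiableAt (by norm_num), ?_⟩
  rw [← ins_grad, hXO z (hVO hz), real_inner_smul_right, real_inner_self_eq_norm_sq]
  have h1 : ‖gradient f z‖ ≠ 0 := norm_ne_zero_iff.2 (h.crit z hz)
  exact inv_mul_cancel₀ (pow_ne_zero 2 h1)

private theorem Sweep.cder (h : Sweep V K ι f X γ) (x : E) (σ s : ℝ) :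
    HasDerivAt (fun s => γ (σ * s) x) (σ • X (γ (σ * s) x)) s := by
  have h1 := h.flow_deriv x (σ * s)
  have h2 : HasDerivAt (fun s : ℝ => σ * s) σ s := by
    simpa using (hasDerivAt_id s).const_mul σ
  exact h1.scomp s h2

private theorem Sweep.fcurve (h : Sweep V K ι f X γ) {x : E} {σ b : ℝ}
    (hcl : ∀ s ∈ Icc 0 b, γ (σ * s) x ∈ closure V) :
    ∀ s ∈ Icc 0 b, f (γ (σ * s) x) = f x + σ * s := by
  have hd : ∀ s ∈ Icc 0 b, HasDerivAt (fun s => f (γ (σ * s) x) - σ * s) 0 s := by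
    intro s hs
    obtain ⟨h1, h2⟩ := h.fX (hcl s hs)
    have h3 := h1.hasFDerivAt.comp_hasDerivAt s (h.cder x σ s)
    rw [map_smul, h2, smul_eq_mul, mul_one] at h3
    have h4 : HasDerivAt (fun s : ℝ => σ * s) σ s := by
      simpa using (hasDerivAt_id s).const_mul σ
    have h5 := h3.sub h4
    rw [sub_self] at h5
    exact h5
  intro s hs
  have h1 := constant_of_has_deriv_right_zero (fun s hs => (hd s hs).continuousAt.continuousWithinAt)
    (fun s hs => (hd s (Ico_subset_Icc_self hs)).hasDerivWithinAt) s hs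
  simp only [mul_zero, sub_zero, h.flow_zero] at h1
  linarith

private theorem Sweep.core (h : Sweep V K ι f X γ) {x : E} {σ : ℝ} (hσ : σ * σ = 1) {b : ℝ}
    (hb : 0 < b) (hV : ∀ s, 0 ≤ s → s < b → γ (σ * s) x ∈ V) (h0 : 0 < f x + σ * b)
    (h1 : f x + σ * b < 1) : γ (σ * b) x ∈ V := by
  by_contra hp
  have hccont : Continuous fun s => γ (σ * s) x :=
    continuous_iff_continuousAt.2 fun s => (h.cder x σ s).continuousAt
  have hpc : γ (σ * b) x ∈ closure V := by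
    have h2 : Tendsto (fun s => γ (σ * s) x) (𝓝[<] b) (𝓝 (γ (σ * b) x)) :=
      (hccont.tendsto b).mono_left nhdsWithin_le_nhds
    refine mem_closure_of_tendsto h2 ?_
    filter_upwards [Ioo_mem_nhdsLT hb] with s hs
    exact hV s hs.1.le hs.2
  have hcl : ∀ s ∈ Icc 0 b, γ (σ * s) x ∈ closure V := by
    intro s hs
    rcases eq_or_lt_of_le hs.2 with h2 | h2
    · rw [h2]
      exact hpc
    · exact subset_closure (hV s hs.1 h2)
  have hfb := h.fcurve hcl b ⟨hb.le, le_rfl⟩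
  obtain ⟨p, hpdef⟩ : ∃ p, p = γ (σ * b) x := ⟨_, rfl⟩
  rw [← hpdef] at hp hpc hfb
  have hpe : p ∉ ⋃ i, ι i '' K i := by
    intro h2
    obtain ⟨i, y, hy, hyp⟩ := mem_iUnion.1 h2
    cases i
    · have h3 := h.end0 y hy
      rw [hyp, hfb] at h3
      linarith
    · have h3 := h.end1 y hy
      rw [hyp, hfb] at h3
      linarith
  have hpf : p ∈ frontier V := by
    rw [h.body.isOpen.frontier_eq]
    exact ⟨hpc, hp⟩
  obtain ⟨n, hn, ρ, hρ, hρ0, ⟨c₀, hc₀, hgr⟩, hρV⟩ := h.body.wall p hpf fun i hi =>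
    hpe (mem_iUnion.2 ⟨i, hi⟩)
  obtain ⟨O, hO, hVO, hXO⟩ := h.X_eq
  have hg : fderiv ℝ ρ p n = c₀ := by
    rw [← ins_grad, hgr, real_inner_smul_left, real_inner_self_eq_norm_sq, hn]
    ring
  have hd : ContDiffAt ℝ 1 (fderiv ℝ ρ) p := hρ.fderiv_right (by norm_num)
  have hpos : ∀ᶠ z in 𝓝 p, 0 < fderiv ℝ ρ z n := by
    have h2 : ContinuousAt (fun z => fderiv ℝ ρ z n) p := hd.continuousAt.clm_apply continuousAt_const
    exact h2.eventually_const_lt (by
      show 0 < fderiv ℝ ρ p n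
      rw [hg]
      exact hc₀)
  have hends : ∀ᶠ z in 𝓝 p, z ∉ ⋃ i, ι i '' K i :=
    h.body.closed_ends.isOpen_compl.mem_nhds hpe
  have hzero : ∀ᶠ z in 𝓝 p, ρ z = 0 → fderiv ℝ ρ z (X z) = 0 := by
    filter_upwards [hpos, hends, hρ.eventually (by simp), hρV.eventually_nhds] with z h2 h3 h4 h5 h6
    have hgz : gradient ρ z ≠ 0 := by
      intro h7
      have h8 := ins_grad ρ z n
      rw [h7, inner_zero_left] at h8
      linarith
    have hgn : 0 < ‖gradient ρ z‖ := norm_pos_iff.2 hgz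
    have hnz : InnerNormal V z (‖gradient ρ z‖⁻¹ • gradient ρ z) := by
      refine ⟨?_, ρ, h4, h6, ⟨‖gradient ρ z‖, hgn, ?_⟩, h5⟩
      · rw [norm_smul, norm_inv, norm_norm, inv_mul_cancel₀ hgn.ne']
      · rw [smul_smul, mul_inv_cancel₀ hgn.ne', one_smul]
    have h7 := h.tan z ⟨hnz.mem_frontier, h3⟩ _ hnz
    rw [real_inner_smul_right] at h7
    have h8 : ⟪gradient f z, gradient ρ z⟫ = 0 := by
      rcases mul_eq_zero.1 h7 with h9 | h9
      · exact absurd h9 (inv_ne_zero hgn.ne')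
      · exact h9
    have h9 : z ∈ closure V := frontier_subset_closure hnz.mem_frontier
    rw [← ins_grad, hXO z (hVO h9), real_inner_smul_right, real_inner_comm, h8, mul_zero]
  obtain ⟨C, hC⟩ := ins_bound hρ hρ0 hn hc₀ hg h.X_smooth hzero
  -- the curve near `p`
  have hall : ∀ᶠ z in 𝓝 p, |fderiv ℝ ρ z (X z)| ≤ C * |ρ z| ∧ DifferentiableAt ℝ ρ z ∧
      (z ∈ V ↔ 0 < ρ z) := by
    filter_upwards [hC, hρ.eventually (by simp), hρV] with z h2 h3 h4
    exact ⟨h2, h3.differentiableAt (by norm_num), h4⟩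
  have hcurve : ∀ᶠ s in 𝓝 (0 : ℝ), |fderiv ℝ ρ (γ (σ * (b - s)) x) (X (γ (σ * (b - s)) x))| ≤
      C * |ρ (γ (σ * (b - s)) x)| ∧ DifferentiableAt ℝ ρ (γ (σ * (b - s)) x) ∧
      (γ (σ * (b - s)) x ∈ V ↔ 0 < ρ (γ (σ * (b - s)) x)) := by
    have h2 : ContinuousAt (fun s => γ (σ * (b - s)) x) 0 :=
      (hccont.comp (continuous_const.sub continuous_id)).continuousAt
    have h3 : γ (σ * (b - 0)) x = p := by rw [sub_zero, hpdef]
    have h4 : Tendsto (fun s => γ (σ * (b - s)) x) (𝓝 0) (𝓝 p) := by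
      rw [← h3]
      exact h2
    exact h4.eventually hall
  obtain ⟨ε, hε, hball⟩ := Metric.eventually_nhds_iff_ball.1 hcurve
  obtain ⟨η, hη⟩ : ∃ η, η = min (ε / 2) (b / 2) := ⟨_, rfl⟩
  have hη0 : 0 < η := by
    rw [hη]
    exact lt_min (by linarith) (by linarith)
  have hη1 : η < ε := by
    rw [hη]
    exact lt_of_le_of_lt (min_le_left _ _) (by linarith)
  have hη2 : η < b := by
    rw [hη]
    exact lt_of_le_of_lt (min_le_right _ _) (by linarith)
  have hin : ∀ s ∈ Icc 0 η, s ∈ ball (0 : ℝ) ε := by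
    intro s hs
    rw [mem_ball, dist_zero_right, Real.norm_of_nonneg hs.1]
    exact lt_of_le_of_lt hs.2 hη1
  have hgd : ∀ s ∈ Icc 0 η, HasDerivAt (fun s => ρ (γ (σ * (b - s)) x))
      (fderiv ℝ ρ (γ (σ * (b - s)) x) (-(σ • X (γ (σ * (b - s)) x)))) s := by
    intro s hs
    have h2 := (hball s (hin s hs)).2.1.hasFDerivAt
    have h3 : HasDerivAt (fun s : ℝ => b - s) (-1) s := by
      simpa using (hasDerivAt_id s).const_sub b
    have h4 := (h.cder x σ (b - s)).scomp s h3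
    rw [neg_smul, one_smul] at h4
    exact h2.comp_hasDerivAt s h4
  have hgron := norm_le_gronwallBound_of_norm_deriv_right_le (δ := 0) (K := C) (ε := 0)
    (fun s hs => (hgd s hs).continuousAt.continuousWithinAt)
    (fun s hs => (hgd s (Ico_subset_Icc_self hs)).hasDerivWithinAt)
    (by
      show ‖ρ (γ (σ * (b - 0)) x)‖ ≤ 0
      rw [sub_zero, ← hpdef, hρ0, norm_zero])
    (fun s hs => by
      have h2 := (hball s (hin s (Ico_subset_Icc_self hs))).1
      have h3 : |σ| = 1 := by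
        have h4 : |σ| * |σ| = 1 := by rw [← abs_mul, hσ, abs_one]
        nlinarith [abs_nonneg σ]
      rw [map_neg, norm_neg, map_smul, norm_smul, Real.norm_eq_abs, h3, one_mul, add_zero,
        Real.norm_eq_abs, Real.norm_eq_abs]
      exact h2) η ⟨hη0.le, le_rfl⟩
  rw [gronwallBound_ε0_δ0] at hgron
  have h2 : ρ (γ (σ * (b - η)) x) = 0 := norm_le_zero_iff.1 hgron
  have h3 := ((hball η (hin η ⟨hη0.le, le_rfl⟩)).2.2).1 (hV (b - η) (by linarith) (by linarith))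
  linarith

private theorem Sweep.stay (h : Sweep V K ι f X γ) {x : E} (hx : x ∈ V) {σ : ℝ} (hσ : σ * σ = 1)
    {t : ℝ} (ht : 0 ≤ t) (h0 : 0 < f x + σ * t) (h1 : f x + σ * t < 1) :
    ∀ s ∈ Icc 0 t, γ (σ * s) x ∈ V := by
  by_contra hcon
  push Not at hcon
  have hccont : Continuous fun s => γ (σ * s) x :=
    continuous_iff_continuousAt.2 fun s => (h.cder x σ s).continuousAt
  have hA : IsCompact (Icc 0 t ∩ {s | γ (σ * s) x ∉ V}) :=
    isCompact_Icc.inter_right ((h.body.isOpen.preimage hccont).isClosed_compl)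
  obtain ⟨s₁, hs₁, hs₁'⟩ := hcon
  obtain ⟨b, ⟨hb1, hb2⟩, hb3⟩ := hA.exists_isLeast ⟨s₁, hs₁, hs₁'⟩
  have hb0 : b ≠ 0 := by
    intro h2
    apply hb2
    show γ (σ * b) x ∈ V
    rw [h2, mul_zero, h.flow_zero]
    exact hx
  have hb0' : 0 < b := lt_of_le_of_ne hb1.1 (Ne.symm hb0)
  obtain ⟨hf0, hf1⟩ := h.f_pos hx
  refine hb2 (h.core hσ hb0' (fun s hs0 hsb => ?_) ?_ ?_)
  · by_contra h2
    have h3 := hb3 ⟨⟨hs0, hsb.le.trans hb1.2⟩, h2⟩
    linarith
  · rcases mul_self_eq_one_iff.1 hσ with h2 | h2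
    · rw [h2]
      linarith
    · rw [h2] at h0 ⊢
      have := hb1.2
      linarith
  · rcases mul_self_eq_one_iff.1 hσ with h2 | h2
    · rw [h2] at h1 ⊢
      have := hb1.2
      linarith
    · rw [h2]
      linarith

theorem Sweep.inside (h : Sweep V K ι f X γ) {x : E} (hx : x ∈ V) {t : ℝ} (h1 : -f x < t)
    (h2 : t < 1 - f x) : γ t x ∈ V ∧ f (γ t x) = f x + t := by
  rcases le_total 0 t with ht | ht
  · have h3 := h.stay hx (σ := 1) (by ring) ht (by linarith) (by linarith)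
    have h4 := h.fcurve (fun s hs => subset_closure (h3 s hs)) t ⟨ht, le_rfl⟩
    have h5 := h3 t ⟨ht, le_rfl⟩
    rw [one_mul] at h4 h5
    exact ⟨h5, h4⟩
  · have h3 := h.stay hx (σ := -1) (by ring) (t := -t) (by linarith) (by linarith) (by linarith)
    have h4 := h.fcurve (fun s hs => subset_closure (h3 s hs)) (-t) ⟨by linarith, le_rfl⟩
    have h5 := h3 (-t) ⟨by linarith, le_rfl⟩
    have h6 : (-1 : ℝ) * -t = t := by ring
    rw [h6] at h4 h5
    exact ⟨h5, h4⟩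

end Pool.Agent.Work.MP_d70a14_gt

end
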