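import Pool.Agent.Work.MP_d70a14_gt.D.Ends

/-! # The flow preserves the distances in the level surfaces (M-L)

Let `z_λ = (1 - λ) x + λ y`, `0 ≤ λ ≤ 1`; all `z_λ ∈ V`, and `f z_λ = f x =: a` (`lev` gives `⟪∇f x, y - x⟫ = 0`, then `flat` for the segments `[x, z_λ]`).
For `-a < t < 1 - a`: `γ t z_λ ∈ V`, `f (γ t z_λ) = a + t` (`inside`).  Claim: for all these `t` and all `λ`
`γ t z_λ = (1 - λ) γ t x + λ γ t y` and `‖γ t x - γ t y‖ = ‖x - y‖`.  The set `T` of all `t` for which this holds (for all `λ`) is closed in `(-a, 1 - a)` and contains `0`.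
Open: let `t₁ ∈ T`; the segment `[γ t₁ x, γ t₁ y] = {γ t₁ z_λ}` is a compact subset of the open set `V`, so a convex neighbourhood (its `δ`-neighbourhood)
is in `V`, and for `|t - t₁| < ε` all points `γ t z_λ` are in it (continuity, compactness in `λ`).  So for these `t` all segments `[γ t z_λ, γ t z_μ]` are in `V` and by `lev`
(both ends) `d/dt ‖γ t z_λ - γ t z_μ‖^2 = 2 ⟪γ t z_λ - γ t z_μ, X (γ t z_λ) - X (γ t z_μ)⟫ = 0` as `X` is parallel to `∇f` in `V`.
So `‖γ t z_λ - γ t z_μ‖ = ‖z_λ - z_μ‖ = |λ - μ| ‖x - y‖`; with `(0, λ)`, `(λ, 1)`, `(0, 1)` this is equality in the triangle inequality, so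
`γ t z_λ` is on the segment at the ratio `λ` (strict convexity: `dist_add_dist_eq_iff`, `Wbtw`).  Connectedness of the interval.  The end points `t = -a`, `1 - a` by
continuity.  `kap_dist`: `ι i` is an isometry. -/

open MeasureTheory Set Metric Filter Topology
open scoped RealInnerProductSpace ContDiff ENNReal

noncomputable section

namespace Pool.Agent.Work.MP_d70a14_gt

variable {V : Set E} {K : Bool → Set P2} {ι : Bool → P2 →ᵃⁱ[ℝ] E} {f : E → ℝ} {X : E → E}
  {γ : ℝ → E → E}


private theorem Sweep.perp (h : Sweep V K ι f X γ) {p q : E} (hs : segment ℝ p q ⊆ V)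
    (hpq : f p = f q) : ⟪p - q, X p - X q⟫ = 0 := by
  obtain ⟨O, hO, hVO, hXO⟩ := h.X_eq
  have hp : p ∈ V := hs (left_mem_segment ℝ p q)
  have hq : q ∈ V := hs (right_mem_segment ℝ p q)
  have h1 := h.lev p q hs hpq
  have h2 := h.lev q p (by rwa [segment_symm]) hpq.symm
  rw [hXO p (hVO (subset_closure hp)), hXO q (hVO (subset_closure hq)), inner_sub_right,
    real_inner_smul_right, real_inner_smul_right]
  have h3 : ⟪p - q, gradient f p⟫ = 0 := by
    rw [real_inner_comm, ← neg_sub q p, inner_neg_right, h1, neg_zero]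
  have h4 : ⟪p - q, gradient f q⟫ = 0 := by
    rw [real_inner_comm, h2]
  rw [h3, h4, mul_zero, mul_zero, sub_zero]

private theorem Sweep.fseg (h : Sweep V K ι f X γ) {x y : E} (hs : segment ℝ x y ⊆ V)
    (hxy : f x = f y) {l : ℝ} (hl : l ∈ Icc (0 : ℝ) 1) :
    AffineMap.lineMap x y l ∈ V ∧ f (AffineMap.lineMap x y l) = f x := by
  have hmem : AffineMap.lineMap x y l ∈ segment ℝ x y := by
    rw [segment_eq_image_lineMap]
    exact ⟨l, hl, rfl⟩
  refine ⟨hs hmem, h.flat x _ ?_ ?_⟩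
  · exact ((convex_segment x y).segment_subset (left_mem_segment ℝ x y) hmem).trans hs
  · rw [AffineMap.lineMap_apply, vsub_eq_sub, vadd_eq_add, add_sub_cancel_right,
      real_inner_smul_right, h.lev x y hs hxy, mul_zero]

/-- the statement which is carried along the flow -/
private def Good (γ : ℝ → E → E) (x y : E) (t : ℝ) : Prop :=
  (∀ l ∈ Icc (0 : ℝ) 1, γ t (AffineMap.lineMap x y l) = AffineMap.lineMap (γ t x) (γ t y) l) ∧
    dist (γ t x) (γ t y) = dist x y

private theorem good_closed (hc : Continuous fun p : ℝ × E => γ p.1 p.2) (x y : E) :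
    IsClosed {t | Good γ x y t} := by
  have hz : ∀ z : E, Continuous fun t => γ t z := fun z =>
    hc.comp (Continuous.prodMk continuous_id continuous_const)
  have h1 : {t | Good γ x y t} = (⋂ l ∈ Icc (0 : ℝ) 1,
      {t | γ t (AffineMap.lineMap x y l) = AffineMap.lineMap (γ t x) (γ t y) l}) ∩
        {t | dist (γ t x) (γ t y) = dist x y} := by
    ext t
    simp only [Good, mem_setOf_eq, mem_inter_iff, mem_iInter]
  rw [h1]
  refine IsClosed.inter (isClosed_biInter fun l _ => isClosed_eq (hz _) ?_)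
    (isClosed_eq ((hz x).dist (hz y)) continuous_const)
  simp only [AffineMap.lineMap_apply, vsub_eq_sub, vadd_eq_add]
  exact (((hz y).sub (hz x)).const_smul l).add (hz x)

private theorem Sweep.good_open (h : Sweep V K ι f X γ) {x y : E} (hs : segment ℝ x y ⊆ V)
    (hxy : f x = f y) {t₁ : ℝ} (hg : Good γ x y t₁) (h1 : -f x < t₁) (h2 : t₁ < 1 - f x) :
    {t | Good γ x y t} ∈ 𝓝 t₁ := by
  have hseg : segment ℝ (γ t₁ x) (γ t₁ y) ⊆ V := by
    rw [segment_eq_image_lineMap]
    rintro _ ⟨l, hl, rfl⟩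
    rw [← hg.1 l hl]
    obtain ⟨h3, h4⟩ := h.fseg hs hxy hl
    exact (h.inside h3 (by rw [h4]; exact h1) (by rw [h4]; exact h2)).1
  have hcpt : IsCompact (segment ℝ (γ t₁ x) (γ t₁ y)) := by
    rw [segment_eq_image_lineMap]
    exact isCompact_Icc.image AffineMap.lineMap_continuous
  obtain ⟨δ, hδ, hδV⟩ := hcpt.exists_thickening_subset_open h.body.isOpen hseg
  have hconv : Convex ℝ (thickening δ (segment ℝ (γ t₁ x) (γ t₁ y))) :=
    (convex_segment _ _).thickening δ
  have hev : ∀ᶠ t in 𝓝 t₁, ∀ l ∈ Icc (0 : ℝ) 1,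
      γ t (AffineMap.lineMap x y l) ∈ thickening δ (segment ℝ (γ t₁ x) (γ t₁ y)) := by
    refine isCompact_Icc.eventually_forall_of_forall_eventually fun l hl => ?_
    have hcont : Continuous fun p : ℝ × ℝ => γ p.1 (AffineMap.lineMap x y p.2) :=
      h.flow_cont.comp (Continuous.prodMk continuous_fst
        (AffineMap.lineMap_continuous.comp continuous_snd))
    refine hcont.continuousAt.eventually_mem (isOpen_thickening.mem_nhds ?_)
    show γ t₁ (AffineMap.lineMap x y l) ∈ _
    rw [hg.1 l hl]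
    refine self_subset_thickening hδ _ ?_
    rw [segment_eq_image_lineMap]
    exact ⟨l, hl, rfl⟩
  obtain ⟨ε, hε, hball⟩ := Metric.eventually_nhds_iff_ball.1
    ((hev.and (eventually_gt_nhds h1)).and (eventually_lt_nhds h2))
  refine Filter.mem_of_superset (ball_mem_nhds t₁ hε) fun t ht => ?_
  have hdist : ∀ l ∈ Icc (0 : ℝ) 1, ∀ m ∈ Icc (0 : ℝ) 1,
      dist (γ t (AffineMap.lineMap x y l)) (γ t (AffineMap.lineMap x y m)) =
        dist l m * dist x y := by
    intro l hl m hm
    set F : ℝ → ℝ := fun s => ‖γ s (AffineMap.lineMap x y l) - γ s (AffineMap.lineMap x y m)‖ ^ 2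
      with hF
    have hder : ∀ s ∈ ball t₁ ε, HasDerivAt F 0 s := by
      intro s hs'
      obtain ⟨⟨h3, h4⟩, h5⟩ := hball s hs'
      have h6 := ((h.flow_deriv (AffineMap.lineMap x y l) s).sub
        (h.flow_deriv (AffineMap.lineMap x y m) s)).norm_sq
      obtain ⟨h7, h8⟩ := h.fseg hs hxy hl
      obtain ⟨h9, h10⟩ := h.fseg hs hxy hm
      have h11 := h.inside h7 (t := s) (by rw [h8]; exact h4) (by rw [h8]; exact h5)
      have h12 := h.inside h9 (t := s) (by rw [h10]; exact h4) (by rw [h10]; exact h5)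
      have h13 : segment ℝ (γ s (AffineMap.lineMap x y l)) (γ s (AffineMap.lineMap x y m)) ⊆ V :=
        (hconv.segment_subset (h3 l hl) (h3 m hm)).trans hδV
      have h14 := h.perp h13 (by rw [h11.2, h12.2, h8, h10])
      have h15 : (2 : ℝ) * ⟪((fun t => γ t (AffineMap.lineMap x y l)) -
          fun t => γ t (AffineMap.lineMap x y m)) s,
          X (γ s (AffineMap.lineMap x y l)) - X (γ s (AffineMap.lineMap x y m))⟫ = 0 := by
        show (2 : ℝ) * ⟪γ s (AffineMap.lineMap x y l) - γ s (AffineMap.lineMap x y m),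
          X (γ s (AffineMap.lineMap x y l)) - X (γ s (AffineMap.lineMap x y m))⟫ = 0
        rw [h14, mul_zero]
      rw [h15] at h6
      exact h6
    have hconst : F t = F t₁ := by
      refine isOpen_ball.is_const_of_deriv_eq_zero (convex_ball t₁ ε).isPreconnected
        (fun s hs' => (hder s hs').differentiableAt.differentiableWithinAt)
        (fun s hs' => (hder s hs').deriv) ht (mem_ball_self hε)
    have h3 : dist (γ t (AffineMap.lineMap x y l)) (γ t (AffineMap.lineMap x y m)) ^ 2 =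
        dist (γ t₁ (AffineMap.lineMap x y l)) (γ t₁ (AffineMap.lineMap x y m)) ^ 2 := by
      rw [dist_eq_norm, dist_eq_norm]
      exact hconst
    have h4 : dist (γ t (AffineMap.lineMap x y l)) (γ t (AffineMap.lineMap x y m)) =
        dist (γ t₁ (AffineMap.lineMap x y l)) (γ t₁ (AffineMap.lineMap x y m)) :=
      (pow_left_inj₀ dist_nonneg dist_nonneg two_ne_zero).1 h3
    rw [h4, hg.1 l hl, hg.1 m hm, dist_lineMap_lineMap, hg.2]
  have h0 : (0 : ℝ) ∈ Icc (0 : ℝ) 1 := ⟨le_rfl, zero_le_one⟩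
  have h01 : (1 : ℝ) ∈ Icc (0 : ℝ) 1 := ⟨zero_le_one, le_rfl⟩
  have hd : dist (γ t x) (γ t y) = dist x y := by
    have h3 := hdist 0 h0 1 h01
    rw [AffineMap.lineMap_apply_zero, AffineMap.lineMap_apply_one, Real.dist_eq] at h3
    simpa using h3
  refine ⟨fun l hl => ?_, hd⟩
  refine eq_lineMap_of_dist_eq_mul_of_dist_eq_mul ?_ ?_
  · have h3 := hdist 0 h0 l hl
    rw [AffineMap.lineMap_apply_zero, Real.dist_eq, zero_sub, abs_neg, abs_of_nonneg hl.1] at h3
    rw [h3, hd]
  · have h3 := hdist l hl 1 h01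
    rw [AffineMap.lineMap_apply_one, Real.dist_eq, abs_sub_comm, abs_of_nonneg (sub_nonneg.2 hl.2)]
      at h3
    rw [h3, hd]

private theorem Sweep.good_all (h : Sweep V K ι f X γ) {x y : E} (hs : segment ℝ x y ⊆ V)
    (hxy : f x = f y) : Ioo (-f x) (1 - f x) ⊆ {t | Good γ x y t} := by
  have hx : x ∈ V := hs (left_mem_segment ℝ x y)
  obtain ⟨hp, hl⟩ := h.f_pos hx
  have h0 : Good γ x y 0 := by
    refine ⟨fun l _ => ?_, ?_⟩
    · rw [h.flow_zero, h.flow_zero, h.flow_zero]
    · rw [h.flow_zero, h.flow_zero]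
  have hcl := good_closed h.flow_cont x y
  refine Subset.trans (isPreconnected_Ioo.subset_of_closure_inter_subset
    (isOpen_interior (s := {t | Good γ x y t})) ?_ ?_) interior_subset
  · exact ⟨0, ⟨by linarith, by linarith⟩, mem_interior_iff_mem_nhds.2
      (h.good_open hs hxy h0 (by linarith) (by linarith))⟩
  · rintro t ⟨h1, h2⟩
    have h3 : t ∈ {t | Good γ x y t} := closure_minimal interior_subset hcl h1
    exact mem_interior_iff_mem_nhds.2 (h.good_open hs hxy h3 h2.1 h2.2)

theorem Sweep.iso_flow (h : Sweep V K ι f X γ) {x y : E} (hs : segment ℝ x y ⊆ V) (hxy : f x = f y)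
    {t : ℝ} (h1 : -f x ≤ t) (h2 : t ≤ 1 - f x) : ‖γ t x - γ t y‖ = ‖x - y‖ := by
  have h3 : closure (Ioo (-f x) (1 - f x)) ⊆ {t | Good γ x y t} :=
    closure_minimal (h.good_all hs hxy) (good_closed h.flow_cont x y)
  rw [closure_Ioo (by linarith)] at h3
  have h4 := (h3 ⟨h1, h2⟩).2
  rwa [dist_eq_norm, dist_eq_norm] at h4

theorem Sweep.kap_dist (h : Sweep V K ι f X γ) {x y : E} (hs : segment ℝ x y ⊆ V)
    (hxy : f x = f y) (i : Bool) : dist (kap ι f γ i x) (kap ι f γ i y) = dist x y := by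
  have hx : x ∈ V := hs (left_mem_segment ℝ x y)
  have hy : y ∈ V := hs (right_mem_segment ℝ x y)
  rw [← (ι i).dist_map, (h.kap_spec hx i).1, (h.kap_spec hy i).1, ← hxy, dist_eq_norm, dist_eq_norm]
  refine h.iso_flow hs hxy ?_ ?_
  · cases i <;> simp
  · cases i <;> simp

end Pool.Agent.Work.MP_d70a14_gt

end
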