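import Pool.Agent.Work.MP_d70a14_gt.D.IsoFlow
import Pool.Agent.Work.MP_d70a14_gt.D.Disc

/-! # The level surface near a point (M)

Let `r > 0` with `ball x r ⊆ V`, and let `a : P2 → E` be an affine isometry onto the plane through `x` orthogonal to `∇f x ≠ 0` (`crit`), `a 0 = x` (orthonormal basis of the
orthogonal complement of `∇f x`).  For `z ∈ ball x r` the segment `[x, z]` is in `V`; if `f z = f x` then `⟪∇f x, z - x⟫ = 0` by `lev`, so `z = a w` with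
`‖w‖ = ‖z - x‖ < r`.  For `w ∈ ball 0 r`: `a w ∈ ball x r` and `⟪∇f x, a w - x⟫ = 0`, so `f (a w) = f x` by `flat`.  For `w, w' ∈ ball 0 r` the segment
`[a w, a w']` is in `ball x r ⊆ V`, so by `kap_dist` the map `w ↦ kap i (a w)` is isometric on `ball 0 r`: `disc_ext` gives `J i`. -/

open MeasureTheory Set Metric Filter Topology
open scoped RealInnerProductSpace ContDiff ENNReal

noncomputable section

namespace Pool.Agent.Work.MP_d70a14_gt

variable {V : Set E} {K : Bool → Set P2} {ι : Bool → P2 →ᵃⁱ[ℝ] E} {f : E → ℝ} {X : E → E}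
  {γ : ℝ → E → E}

/-- a linear isometry onto the orthogonal complement of a nonzero vector -/
private theorem exA {g : E} (hg : g ≠ 0) : ∃ A : P2 →ₗᵢ[ℝ] E, (∀ w, ⟪g, A w⟫ = 0) ∧
    ∀ u : E, ⟪g, u⟫ = 0 → ∃ w, A w = u := by
  have : Fact (Module.finrank ℝ E = 2 + 1) := ⟨by simp⟩
  have hr : Module.finrank ℝ (ℝ ∙ g)ᗮ = 2 := Submodule.finrank_orthogonal_span_singleton hg
  set b : OrthonormalBasis (Fin 2) ℝ (ℝ ∙ g)ᗮ :=
    (stdOrthonormalBasis ℝ (ℝ ∙ g)ᗮ).reindex (finCongr hr) with hb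
  refine ⟨(Submodule.subtypeₗᵢ (ℝ ∙ g)ᗮ).comp b.repr.symm.toLinearIsometry, fun w => ?_,
    fun u hu => ?_⟩
  · show ⟪g, ((b.repr.symm w : (ℝ ∙ g)ᗮ) : E)⟫ = 0
    exact Submodule.mem_orthogonal_singleton_iff_inner_right.1 (b.repr.symm w).2
  · refine ⟨b.repr ⟨u, Submodule.mem_orthogonal_singleton_iff_inner_right.2 hu⟩, ?_⟩
    show ((b.repr.symm (b.repr ⟨u, Submodule.mem_orthogonal_singleton_iff_inner_right.2 hu⟩) :
      (ℝ ∙ g)ᗮ) : E) = u
    rw [LinearIsometryEquiv.symm_apply_apply]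

theorem Sweep.leaf (h : Sweep V K ι f X γ) {x : E} (hx : x ∈ V) :
    ∃ (a : P2 →ᵃⁱ[ℝ] E) (r : ℝ) (J : Bool → (P2 ≃ᵃⁱ[ℝ] P2)), 0 < r ∧ a 0 = x ∧ ball x r ⊆ V ∧
      (∀ z ∈ ball x r, f z = f x → ∃ w ∈ ball (0 : P2) r, a w = z) ∧
      ∀ w ∈ ball (0 : P2) r, a w ∈ V ∧ f (a w) = f x ∧ ∀ i, kap ι f γ i (a w) = J i w := by
  obtain ⟨r, hr, hrV⟩ := Metric.isOpen_iff.1 h.body.isOpen x hx
  have hg : gradient f x ≠ 0 := h.crit x (subset_closure hx)
  obtain ⟨A, hA1, hA2⟩ := exA hg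
  set a : P2 →ᵃⁱ[ℝ] E :=
    (AffineIsometryEquiv.constVAdd ℝ E x).toAffineIsometry.comp A.toAffineIsometry with ha
  have haw : ∀ w, a w = x + A w := fun w => rfl
  have hmem : ∀ w ∈ ball (0 : P2) r, a w ∈ ball x r := fun w hw => by
    rw [mem_ball, dist_eq_norm, haw, add_sub_cancel_left, A.norm_map]
    rwa [mem_ball, dist_zero_right] at hw
  have hseg : ∀ y ∈ ball x r, ∀ z ∈ ball x r, segment ℝ y z ⊆ V := fun y hy z hz =>
    ((convex_ball x r).segment_subset hy hz).trans hrV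
  have hfw : ∀ w ∈ ball (0 : P2) r, f (a w) = f x := fun w hw => by
    refine h.flat x (a w) (hseg x (mem_ball_self hr) _ (hmem w hw)) ?_
    rw [haw, add_sub_cancel_left]
    exact hA1 w
  have hJ : ∀ i : Bool, ∃ J : P2 ≃ᵃⁱ[ℝ] P2, ∀ w ∈ ball (0 : P2) r, kap ι f γ i (a w) = J w := by
    intro i
    refine disc_ext hr (fun w hw w' hw' => ?_)
    rw [h.kap_dist (hseg _ (hmem w hw) _ (hmem w' hw')) ((hfw w hw).trans (hfw w' hw').symm) i]
    exact a.dist_map w w'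
  choose J hJ using hJ
  refine ⟨a, r, J, hr, ?_, hrV, fun z hz hfz => ?_, fun w hw => ⟨hrV (hmem w hw), hfw w hw,
    fun i => hJ i w hw⟩⟩
  · rw [haw, map_zero, add_zero]
  · have h1 := h.lev x z (hseg x (mem_ball_self hr) z hz) hfz.symm
    obtain ⟨w, hw⟩ := hA2 (z - x) h1
    refine ⟨w, ?_, ?_⟩
    · rw [mem_ball, dist_zero_right, ← A.norm_map w, hw, ← dist_eq_norm]
      exact hz
    · rw [haw, hw, add_sub_cancel]

end Pool.Agent.Work.MP_d70a14_gt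

end
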