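import Pool.Agent.Work.MP_d70a14_gt.D.Leaf

/-! # Local rigidity (M)

Let `a, r, J` be from `leaf`.
`kap_local`: `M = J true ∘ (J false)⁻¹`.  For `z` near `x` put `z' = γ (f x - f z) z`: it is near `x` (`flow_cont`, `γ 0 x = x`, `f` continuous), in `V`, with
`f z' = f x` (`inside`), so `z' = a w` with `w ∈ ball 0 r`, and by `kap_flow` `kap i z = kap i z' = J i w` for both `i`.
`kap_open`: for small `r'` we have `a '' ball 0 r' ⊆ O`, so `kap i '' O ⊇ J i '' ball 0 r'`, a neighbourhood of `J i 0 = kap i x`.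
`kap_image`: `⊆`: `kap i '' V ⊆ K i` (`kap_spec`) is open by `kap_open`; `⊇`: `kap_surj`.
`kap_global`: for `x ∈ V` let `M x` be from `kap_local`.  It is locally constant: if `z` is near `x` (so that `kap_local` for `x` holds near `z`) then `M x` and `M z` agree on
`kap false '' O` for a neighbourhood `O` of `z`, which contains an open set, so `M x = M z` (two affine maps which agree on a nonempty open set).  `V` is connected
(`IsPreconnected.constant_of_mapsTo`, or a clopen argument). -/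

open MeasureTheory Set Metric Filter Topology
open scoped RealInnerProductSpace ContDiff ENNReal

noncomputable section

namespace Pool.Agent.Work.MP_d70a14_gt

variable {V : Set E} {K : Bool → Set P2} {ι : Bool → P2 →ᵃⁱ[ℝ] E} {f : E → ℝ} {X : E → E}
  {γ : ℝ → E → E}


private theorem lo_cont (h : Sweep V K ι f X γ) {x : E} (hx : x ∈ V) : ContinuousAt f x := by
  obtain ⟨U, hU, hVU, hf⟩ := h.smooth
  exact (hf.contDiffAt (hU.mem_nhds (hVU (subset_closure hx)))).continuousAt

theorem Sweep.kap_local (h : Sweep V K ι f X γ) {x : E} (hx : x ∈ V) :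
    ∃ M : P2 ≃ᵃⁱ[ℝ] P2, ∀ᶠ z in 𝓝 x, kap ι f γ true z = M (kap ι f γ false z) := by
  obtain ⟨a, r, J, hr, ha0, hball, h1, h2⟩ := h.leaf hx
  refine ⟨(J false).symm.trans (J true), ?_⟩
  have hcont : ContinuousAt (fun z : E => γ (f x - f z) z) x := by
    have h3 : ContinuousAt (fun z : E => ((f x - f z, z) : ℝ × E)) x :=
      (continuousAt_const.sub (lo_cont h hx)).prodMk continuousAt_id
    exact (h.flow_cont.continuousAt (x := ((f x - f x, x) : ℝ × E))).comp
      (f := fun z : E => ((f x - f z, z) : ℝ × E)) h3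
  have hval : γ (f x - f x) x = x := by rw [sub_self, h.flow_zero]
  have hnear : ∀ᶠ z in 𝓝 x, γ (f x - f z) z ∈ ball x r := by
    refine hcont.eventually_mem ?_
    show ball x r ∈ 𝓝 (γ (f x - f x) x)
    rw [hval]
    exact ball_mem_nhds x hr
  have hfx := h.f_pos hx
  filter_upwards [hnear, h.body.isOpen.mem_nhds hx] with z hz hzV
  have hin := h.inside hzV (t := f x - f z) (by linarith) (by linarith)
  obtain ⟨w, hw, haw⟩ := h1 _ hz (by rw [hin.2]; ring)
  have hk : ∀ i, kap ι f γ i z = J i w := by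
    intro i
    rw [← (h2 w hw).2.2 i, haw]
    exact (h.kap_flow hzV (by linarith) (by linarith) i).symm
  rw [hk true, hk false]
  show J true w = J true ((J false).symm (J false w))
  rw [AffineIsometryEquiv.symm_apply_apply]

theorem Sweep.kap_open (h : Sweep V K ι f X γ) {x : E} (hx : x ∈ V) (i : Bool) {O : Set E}
    (hO : O ∈ 𝓝 x) : kap ι f γ i '' O ∈ 𝓝 (kap ι f γ i x) := by
  obtain ⟨a, r, J, hr, ha0, hball, h1, h2⟩ := h.leaf hx
  have hc : a ⁻¹' O ∈ 𝓝 (0 : P2) := by
    refine (a.continuous.continuousAt (x := (0 : P2))).preimage_mem_nhds ?_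
    rw [ha0]
    exact hO
  obtain ⟨r', hr', hr'O⟩ := Metric.mem_nhds_iff.1 hc
  have hx0 : kap ι f γ i x = J i 0 := by
    rw [← (h2 0 (mem_ball_self hr)).2.2 i, ha0]
  rw [hx0]
  refine Filter.mem_of_superset (ball_mem_nhds (J i 0) (lt_min hr hr')) ?_
  intro y hy
  have hw : (J i).symm y ∈ ball (0 : P2) (min r r') := by
    rw [mem_ball] at hy ⊢
    have h3 : dist (J i ((J i).symm y)) (J i 0) = dist ((J i).symm y) 0 := (J i).dist_map _ _
    rw [← h3, AffineIsometryEquiv.apply_symm_apply]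
    exact hy
  have hw1 : (J i).symm y ∈ ball (0 : P2) r := ball_subset_ball (min_le_left _ _) hw
  have hw2 : (J i).symm y ∈ ball (0 : P2) r' := ball_subset_ball (min_le_right _ _) hw
  refine ⟨a ((J i).symm y), hr'O hw2, ?_⟩
  rw [(h2 _ hw1).2.2 i, AffineIsometryEquiv.apply_symm_apply]

theorem Sweep.kap_image (h : Sweep V K ι f X γ) (i : Bool) :
    kap ι f γ i '' V = interior (K i) := by
  apply Set.Subset.antisymm
  · refine interior_maximal ?_ ?_
    · rintro y ⟨x, hx, rfl⟩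
      exact (h.kap_spec hx i).2
    · rw [isOpen_iff_mem_nhds]
      rintro y ⟨x, hx, rfl⟩
      exact h.kap_open hx i (h.body.isOpen.mem_nhds hx)
  · intro y hy
    obtain ⟨x, hx, hxy⟩ := h.kap_surj i hy
    exact ⟨x, hx, hxy⟩

private theorem aff_eq {M N : P2 ≃ᵃⁱ[ℝ] P2} {p : P2} (h : ∀ᶠ w in 𝓝 p, M w = N w) : M = N := by
  have hp : M p = N p := h.self_of_nhds
  ext1 w
  have hc : ContinuousAt (fun t : ℝ => AffineMap.lineMap p w t) 0 :=
    (AffineMap.lineMap_continuous (R := ℝ) (p := p) (q := w)).continuousAt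
  have h0 : AffineMap.lineMap p w (0 : ℝ) = p := AffineMap.lineMap_apply_zero p w
  have hmem : {w | M w = N w} ∈ 𝓝 (AffineMap.lineMap p w (0 : ℝ)) := by
    rw [h0]
    exact h
  have h1 : ∀ᶠ t in 𝓝 (0 : ℝ), M (AffineMap.lineMap p w t) = N (AffineMap.lineMap p w t) :=
    hc.preimage_mem_nhds hmem
  have h2 : ∀ᶠ t in 𝓝[>] (0 : ℝ), M (AffineMap.lineMap p w t) = N (AffineMap.lineMap p w t) :=
    h1.filter_mono nhdsWithin_le_nhds
  have h3 : ∀ᶠ t : ℝ in 𝓝[>] (0 : ℝ), 0 < t := self_mem_nhdsWithin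
  obtain ⟨t, ht, ht0⟩ := (h2.and h3).exists
  have e1 : M (AffineMap.lineMap p w t) = AffineMap.lineMap (M p) (M w) t :=
    AffineMap.apply_lineMap (M.toAffineEquiv : P2 →ᵃ[ℝ] P2) p w t
  have e2 : N (AffineMap.lineMap p w t) = AffineMap.lineMap (N p) (N w) t :=
    AffineMap.apply_lineMap (N.toAffineEquiv : P2 →ᵃ[ℝ] P2) p w t
  rw [e1, e2, hp, AffineMap.lineMap_apply, AffineMap.lineMap_apply] at ht
  have h4 := smul_right_injective P2 ht0.ne' (vadd_right_cancel _ ht)
  exact vsub_left_injective _ h4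

theorem Sweep.kap_global (h : Sweep V K ι f X γ) :
    ∃ M : P2 ≃ᵃⁱ[ℝ] P2, ∀ z ∈ V, kap ι f γ true z = M (kap ι f γ false z) := by
  obtain ⟨x₀, hx₀⟩ := h.body.isConnected.nonempty
  obtain ⟨M₀, hM₀⟩ := h.kap_local hx₀
  have hsub : V ⊆ {x | x ∈ V ∧ ∀ᶠ z in 𝓝 x, kap ι f γ true z = M₀ (kap ι f γ false z)} := by
    refine h.body.isConnected.isPreconnected.subset_of_closure_inter_subset ?_ ?_ ?_
    · rw [isOpen_iff_mem_nhds]
      rintro x ⟨hx, hx2⟩
      filter_upwards [h.body.isOpen.mem_nhds hx, eventually_eventually_nhds.2 hx2] with z hz hz2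
      exact ⟨hz, hz2⟩
    · exact ⟨x₀, hx₀, hx₀, hM₀⟩
    · rintro y ⟨hy, hyV⟩
      obtain ⟨M, hM⟩ := h.kap_local hyV
      have h1 : {z | z ∈ V ∧ ∀ᶠ z' in 𝓝 z, kap ι f γ true z' = M (kap ι f γ false z')} ∈ 𝓝 y := by
        filter_upwards [h.body.isOpen.mem_nhds hyV, eventually_eventually_nhds.2 hM] with z hz hz2
        exact ⟨hz, hz2⟩
      obtain ⟨z, ⟨hzV, hz1⟩, -, hz2⟩ := mem_closure_iff_nhds.1 hy _ h1
      have h2 : {z' | M (kap ι f γ false z') = M₀ (kap ι f γ false z')} ∈ 𝓝 z := by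
        filter_upwards [hz1, hz2] with z' h3 h4
        show M (kap ι f γ false z') = M₀ (kap ι f γ false z')
        rw [← h3, ← h4]
      have h3 := h.kap_open hzV false h2
      have h4 : ∀ᶠ w in 𝓝 (kap ι f γ false z), M w = M₀ w := by
        filter_upwards [h3] with w hw
        obtain ⟨z', hz', rfl⟩ := hw
        exact hz'
      have h5 := aff_eq h4
      rw [← h5]
      exact ⟨hyV, hM⟩
  exact ⟨M₀, fun z hz => (hsub hz).2.self_of_nhds⟩

end Pool.Agent.Work.MP_d70a14_gt

end
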