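import Pool.Agent.Work.MP_d70a14_gt.C.Susp
import Pool.Agent.Work.MP_d70a14_gt.B.FlowMap

/-! # The level surfaces are orthogonal to the wall (M)

`Wall V K ι = frontier V \ (closed set)` (`Body.closed_ends`).  Let `α = ⟪∇f p, n⟫`; suppose `α ≠ 0`.  For a small `ε > 0` let `x₀ = p + ε n ∈ V` and
`x₁ = x₀`, `v₀ = -n/2`, `v₁ = n/2 = mirror n v₀`: the ray from `(x₀, v₀)` hits the wall at `p` at the time `2ε` (free: `p + s n ∈ V` for small `s > 0`,
`InnerNormal.inward`), and is at `(x₀, v₁)` at the time `4ε`: `Flow V W 1 x₀ v₀ (4ε) x₀ v₁`.  By `flow_map`: `N, Φ` with `Φ (x₀, v₀) = (x₀, v₁)`.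
For `ε` small `⟪∇f x₀, n⟫` has the sign of `α` (continuity of `∇f` at `p ∈ closure V ⊆ U`).  Shrink `N` (open) such that on `N` the rate has the sign of `-α`
and at `Φ q` the sign of `α`, and velocities have norm `< 1`.  For `q ∈ N`: `q ∈ Cset false ↔ Φ q ∈ Cset false` (reversed ray from `Φ q` goes to `q` reversed: `Flow.rev`;
`Flow.trans`, `Flow.cut`).  Case `α > 0`: a.e. `q ∈ N` is not in `Cset false`, so a.e. `q ∈ N` has `Φ q ∉ Cset false`; but a.e. `z ∈ Φ '' N` is in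
`Cset false`.  So `Φ` maps a subset of full measure of `N` into a null set; but `Φ` is injective with `|det| = 1`, so it preserves the measure
(`lintegral_abs_det_fderiv_eq_addHaar_image`): contradiction with `volume N > 0`.  Case `α < 0`: the same with `Cset false` and its complement exchanged. -/

open MeasureTheory Set Metric Filter Topology
open scoped RealInnerProductSpace ContDiff ENNReal

noncomputable section

namespace Pool.Agent.Work.MP_d70a14_gt

variable {V : Set E} {K : Bool → Set P2} {ι : Bool → P2 →ᵃⁱ[ℝ] E} {f : E → ℝ} {X : E → E}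
  {γ : ℝ → E → E}


private theorem rate_contAt {U : Set E} (hU : IsOpen U) (hf : ContDiffOn ℝ 1 f U) {x : E}
    (hx : x ∈ U) (v : E) : ContinuousAt (rate f) (x, v) := by
  have h1 : ContinuousOn (fderiv ℝ f) U := hf.continuousOn_fderiv_of_isOpen hU le_rfl
  have h2 : ContinuousAt (fun q : E × E => fderiv ℝ f q.1) (x, v) :=
    ContinuousAt.comp (f := Prod.fst) (g := fderiv ℝ f) (h1.continuousAt (hU.mem_nhds hx))
      continuousAt_fst
  have h3 : rate f = fun q : E × E => fderiv ℝ f q.1 q.2 := by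
    funext q
    unfold rate gradient
    exact InnerProductSpace.toDual_symm_apply
  rw [h3]
  exact h2.clm_apply continuousAt_snd

private theorem cset_flow (hb : Body V K ι) {k : ℕ} {q z : E × E} {T : ℝ} (hq : q.1 ∈ V)
    (hz : z.1 ∈ V) (hF : Flow V (Wall V K ι) k q.1 q.2 T z.1 z.2) :
    q ∈ Cset V K ι false ↔ z ∈ Cset V K ι false := by
  constructor
  · rintro ⟨-, k', t, y, w, n, h1, h2, h3, h4⟩
    exact ⟨hz, _, _, y, w, n, Flow.trans hF.rev hq h1, h2, h3, h4⟩
  · rintro ⟨-, hL⟩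
    have hd := end_disjoint hb false
    obtain ⟨h1, h2⟩ := st_eq hb.isOpen Body.wall_sub hF.rev hq
    have h3 := leaves_live hb.isOpen Body.wall_sub hd.1 hd.2 hL h1
    rw [h2] at h3
    exact ⟨hq, h3⟩

private theorem bounce (hb : Body V K ι) {p n : E} (hp : p ∈ Wall V K ι) (hn : InnerNormal V p n)
    {ε : ℝ} (hε : 0 < ε) (hfree : ∀ s : ℝ, 0 < s → s ≤ ε → p + s • n ∈ V) :
    Flow V (Wall V K ι) (0 + 1) (p + ε • n) (-((1 / 2 : ℝ) • n)) (2 * ε + 2 * ε) (p + ε • n)
      ((1 / 2 : ℝ) • n) := by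
  have hnn : ⟪n, n⟫ = 1 := by
    rw [real_inner_self_eq_norm_sq, hn.1]
    norm_num
  have h1 : (p + ε • n) + (2 * ε) • (-((1 / 2 : ℝ) • n)) = p := by module
  have h2 : mirror n (-((1 / 2 : ℝ) • n)) = (1 / 2 : ℝ) • n := by
    unfold mirror
    rw [inner_neg_left, real_inner_smul_left, hnn]
    module
  have h3 : p + (2 * ε) • ((1 / 2 : ℝ) • n) = p + ε • n := by module
  have h4 : Flow V (Wall V K ι) 0 p ((1 / 2 : ℝ) • n) (2 * ε) (p + ε • n) ((1 / 2 : ℝ) • n) := by
    have h5 : Flow V (Wall V K ι) 0 p ((1 / 2 : ℝ) • n) (2 * ε)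
        (p + (2 * ε) • ((1 / 2 : ℝ) • n)) ((1 / 2 : ℝ) • n) := by
      refine Flow.free (by positivity) fun s hs hst => ?_
      rw [smul_smul]
      exact hfree _ (by positivity) (by linarith)
    rwa [h3] at h5
  refine Flow.refl (n := n) (by positivity) ?_ (by rw [h1]; exact hp) (by rw [h1]; exact hn) ?_ ?_
  · intro s hs hst
    have h5 : (p + ε • n) + s • (-((1 / 2 : ℝ) • n)) = p + (ε - s / 2) • n := by module
    rw [h5]
    exact hfree _ (by linarith) (by linarith)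
  · rw [inner_neg_left, real_inner_smul_left, hnn]
    norm_num
  · rw [h1, h2]
    exact h4

private theorem contra (hb : Body V K ι) (h : Half V K ι f) {N : Set (E × E)}
    {Φ : E × E → E × E} (hN : IsOpen N) (hne : N.Nonempty) (hΦ : ContDiffOn ℝ 1 Φ N)
    (hinj : InjOn Φ N) (hdet : ∀ q ∈ N, |(fderiv ℝ Φ q).det| = 1) {k : ℕ} {T : ℝ}
    (hflow : ∀ q ∈ N, q.1 ∈ V ∧ (Φ q).1 ∈ V ∧
      Flow V (Wall V K ι) k q.1 q.2 T (Φ q).1 (Φ q).2)
    (hnorm : ∀ q ∈ N, ‖q.2‖ < 1)
    (hsign : ∀ q ∈ N, (0 < rate f q ∧ rate f (Φ q) < 0) ∨ (rate f q < 0 ∧ 0 < rate f (Φ q))) :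
    False := by
  classical
  set Bad : Set (E × E) := {q | ¬ (q.1 ∈ V → ‖q.2‖ < 1 →
    (0 < rate f q → q ∈ Cset V K ι false) ∧ (rate f q < 0 → q ∉ Cset V K ι false))} with hBad
  have hBad0 : volume Bad = 0 := h
  set Bad' := toMeasurable volume Bad with hBad'
  have hBadm : MeasurableSet Bad' := measurableSet_toMeasurable _ _
  have hBad'0 : volume Bad' = 0 := by rw [hBad', measure_toMeasurable, hBad0]
  have hsub : Bad ⊆ Bad' := subset_toMeasurable _ _
  set Ψ : E × E → E × E := N.piecewise Φ (fun _ => 0) with hΨ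
  have hΨm : Measurable Ψ := hΦ.continuousOn.measurable_piecewise continuousOn_const hN.measurableSet
  set M : Set (E × E) := N ∩ Ψ ⁻¹' Bad' with hM
  have hMm : MeasurableSet M := hN.measurableSet.inter (hΨm hBadm)
  have hMN : M ⊆ N := inter_subset_left
  have hder : ∀ q ∈ M, HasFDerivWithinAt Φ (fderiv ℝ Φ q) M q := fun q hq =>
    ((hΦ.contDiffAt (hN.mem_nhds (hMN hq))).differentiableAt
      one_ne_zero).hasFDerivAt.hasFDerivWithinAt
  have hHaar : ((volume : Measure E).prod (volume : Measure E)).IsAddHaarMeasure := inferInstance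
  have hHaar' : (volume : Measure (E × E)).IsAddHaarMeasure := hHaar
  have h1 := lintegral_abs_det_fderiv_eq_addHaar_image (volume : Measure (E × E)) hMm hder
    (hinj.mono hMN)
  have h2 : ∫⁻ q in M, ENNReal.ofReal |(fderiv ℝ Φ q).det| = volume M := by
    rw [setLIntegral_congr_fun (g := fun _ => 1) hMm ?_, setLIntegral_one]
    intro q hq
    show ENNReal.ofReal |(fderiv ℝ Φ q).det| = 1
    rw [hdet q (hMN hq), ENNReal.ofReal_one]
  have h3 : volume (Φ '' M) = 0 := by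
    refine measure_mono_null ?_ hBad'0
    rintro _ ⟨q, hq, rfl⟩
    have h4 : Ψ q ∈ Bad' := hq.2
    have h5 : Ψ q = Φ q := piecewise_eq_of_mem _ _ _ hq.1
    rwa [h5] at h4
  have hM0 : volume M = 0 := by
    rw [← h2]
    exact h1.trans h3
  have hN0 : volume N = 0 := by
    refine measure_mono_null (t := Bad' ∪ M) ?_ (measure_union_null hBad'0 hM0)
    intro q hq
    by_contra hcon
    rw [mem_union, not_or] at hcon
    obtain ⟨hc1, hc2⟩ := hcon
    have hc3 : Φ q ∉ Bad' := by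
      intro h4
      apply hc2
      refine ⟨hq, ?_⟩
      show Ψ q ∈ Bad'
      rw [hΨ, piecewise_eq_of_mem _ _ _ hq]
      exact h4
    have hq1 : q ∉ Bad := fun h4 => hc1 (hsub h4)
    have hq2 : Φ q ∉ Bad := fun h4 => hc3 (hsub h4)
    obtain ⟨hV1, hV2, hF⟩ := hflow q hq
    have hn1 := hnorm q hq
    have hn2 : ‖(Φ q).2‖ < 1 := by
      rw [hF.norm]
      exact hn1
    have hg1 := not_not.1 hq1 hV1 hn1
    have hg2 := not_not.1 hq2 hV2 hn2
    have hiff := cset_flow hb hV1 hV2 hF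
    rcases hsign q hq with ⟨h4, h5⟩ | ⟨h4, h5⟩
    · exact hg2.2 h5 (hiff.1 (hg1.1 h4))
    · exact hg1.2 h4 (hiff.2 (hg2.1 h5))
  exact (hN.measure_pos volume hne).ne' hN0

theorem tan_of_half (hb : Body V K ι) {U : Set E} (hU : IsOpen U) (hVU : closure V ⊆ U)
    (hf : ContDiffOn ℝ 1 f U) (h : Half V K ι f) {p n : E} (hp : p ∈ Wall V K ι)
    (hn : InnerNormal V p n) : ⟪gradient f p, n⟫ = 0 := by
  by_contra hα
  have hpU : p ∈ U := hVU (frontier_subset_closure (Body.wall_sub hp))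
  have hnn : ⟪n, n⟫ = 1 := by
    rw [real_inner_self_eq_norm_sq, hn.1]
    norm_num
  have e1 : ∀ᶠ s : ℝ in 𝓝[>] 0, p + s • n ∈ V := hn.inward (by rw [hnn]; exact one_pos)
  have e2 : ∀ᶠ s : ℝ in 𝓝[>] 0, 0 < ⟪gradient f p, n⟫ * rate f (p + s • n, n) := by
    have h1 : ContinuousAt (fun s : ℝ => ((p + s • n, n) : E × E)) 0 := by fun_prop
    have h2 : ContinuousAt (rate f) ((fun s : ℝ => ((p + s • n, n) : E × E)) 0) := by
      apply rate_contAt hU hf
      rw [zero_smul, add_zero]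
      exact hpU
    have h3 : ContinuousAt (fun s : ℝ => rate f (p + s • n, n)) 0 :=
      ContinuousAt.comp (f := fun s : ℝ => ((p + s • n, n) : E × E)) (g := rate f) h2 h1
    have h4 : ∀ᶠ s : ℝ in 𝓝 0, 0 < ⟪gradient f p, n⟫ * rate f (p + s • n, n) := by
      apply (continuousAt_const.mul h3).eventually_const_lt
      show 0 < ⟪gradient f p, n⟫ * rate f (p + (0 : ℝ) • n, n)
      rw [zero_smul, add_zero]
      exact mul_self_pos.2 hα
    exact nhdsWithin_le_nhds h4
  obtain ⟨δ, hδ, hδ'⟩ := mem_nhdsGT_iff_exists_Ioo_subset.1 (e1.and e2)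
  set ε := δ / 2 with hε
  have hδ0 : (0 : ℝ) < δ := hδ
  have hε0 : 0 < ε := by positivity
  have hfree : ∀ s : ℝ, 0 < s → s ≤ ε → p + s • n ∈ V := fun s hs hs' =>
    (hδ' ⟨hs, by linarith⟩).1
  have hx₀ : p + ε • n ∈ V := hfree ε hε0 le_rfl
  have hrate : 0 < ⟪gradient f p, n⟫ * rate f (p + ε • n, n) := (hδ' ⟨hε0, by linarith⟩).2
  have hF := bounce hb hp hn hε0 hfree
  obtain ⟨N, Φ, hN, hmem, hΦ, hΦ0, hinj, hdet, hflow⟩ :=
    flow_map hb.isOpen hb.closed_ends hF hx₀ hx₀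
  have hr0 : rate f (p + ε • n, -((1 / 2 : ℝ) • n)) = -(1 / 2) * rate f (p + ε • n, n) := by
    unfold rate
    rw [inner_neg_right, real_inner_smul_right]
    ring
  have hr1 : rate f (p + ε • n, (1 / 2 : ℝ) • n) = (1 / 2) * rate f (p + ε • n, n) := by
    unfold rate
    rw [real_inner_smul_right]
  have hc0 : ContinuousAt (rate f) (p + ε • n, -((1 / 2 : ℝ) • n)) :=
    rate_contAt hU hf (hVU (subset_closure hx₀)) _
  have hΦc : ContinuousAt Φ (p + ε • n, -((1 / 2 : ℝ) • n)) :=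
    hΦ.continuousOn.continuousAt (hN.mem_nhds hmem)
  have hc1 : ContinuousAt (fun q => rate f (Φ q)) (p + ε • n, -((1 / 2 : ℝ) • n)) := by
    have h1 : ContinuousAt (rate f) (Φ (p + ε • n, -((1 / 2 : ℝ) • n))) := by
      rw [hΦ0]
      exact rate_contAt hU hf (hVU (subset_closure hx₀)) _
    exact ContinuousAt.comp h1 hΦc
  have e3 : ∀ᶠ q : E × E in 𝓝 (p + ε • n, -((1 / 2 : ℝ) • n)), ‖q.2‖ < 1 := by
    have h1 : ContinuousAt (fun q : E × E => ‖q.2‖) (p + ε • n, -((1 / 2 : ℝ) • n)) := by fun_prop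
    refine h1.eventually_lt continuousAt_const ?_
    show ‖-((1 / 2 : ℝ) • n)‖ < 1
    rw [norm_neg, norm_smul, hn.1]
    norm_num
  have e4 : ∀ᶠ q : E × E in 𝓝 (p + ε • n, -((1 / 2 : ℝ) • n)),
      (0 < rate f q ∧ rate f (Φ q) < 0) ∨ (rate f q < 0 ∧ 0 < rate f (Φ q)) := by
    rcases pos_and_pos_or_neg_and_neg_of_mul_pos hrate with ⟨-, h2⟩ | ⟨-, h2⟩
    · have h3 : ∀ᶠ q : E × E in 𝓝 (p + ε • n, -((1 / 2 : ℝ) • n)), rate f q < 0 := by
        refine hc0.eventually_lt continuousAt_const ?_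
        rw [hr0]
        linarith
      have h4 : ∀ᶠ q : E × E in 𝓝 (p + ε • n, -((1 / 2 : ℝ) • n)), 0 < rate f (Φ q) := by
        apply hc1.eventually_const_lt
        show 0 < rate f (Φ (p + ε • n, -((1 / 2 : ℝ) • n)))
        rw [hΦ0, hr1]
        linarith
      filter_upwards [h3, h4] with q h5 h6
      exact Or.inr ⟨h5, h6⟩
    · have h3 : ∀ᶠ q : E × E in 𝓝 (p + ε • n, -((1 / 2 : ℝ) • n)), 0 < rate f q := by
        apply hc0.eventually_const_lt
        rw [hr0]
        linarith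
      have h4 : ∀ᶠ q : E × E in 𝓝 (p + ε • n, -((1 / 2 : ℝ) • n)), rate f (Φ q) < 0 := by
        refine hc1.eventually_lt continuousAt_const ?_
        show rate f (Φ (p + ε • n, -((1 / 2 : ℝ) • n))) < 0
        rw [hΦ0, hr1]
        linarith
      filter_upwards [h3, h4] with q h5 h6
      exact Or.inl ⟨h5, h6⟩
  obtain ⟨N', hN', hN'o, hN'm⟩ := _root_.eventually_nhds_iff.1
    ((e3.and e4).and (hN.mem_nhds hmem))
  exact contra hb h hN'o ⟨_, hN'm⟩ (hΦ.mono fun q hq => (hN' q hq).2)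
    (hinj.mono fun q hq => (hN' q hq).2) (fun q hq => hdet q (hN' q hq).2)
    (fun q hq => hflow q (hN' q hq).2) (fun q hq => (hN' q hq).1.1)
    (fun q hq => (hN' q hq).1.2)

end Pool.Agent.Work.MP_d70a14_gt

end
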